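import Pool.Agent.MP_a43263_nt.RG.Basic

/-! PROJECT RANKG, second version: the split fibre is replaced by fibres that are unramified at
each place. Note: `/team-store/RANKG_v2_h45.md`. -/

set_option autoImplicit false

noncomputable section

namespace Pool.Agent.MP_a43263_nt.RG

open Finset Filter
open R2 (Sgn chi Ker sg ELS SHAStmt)

variable {n : ℕ}

/-- the curves `y ^ 2 = x (x - a) (x - b)` to which the descent applies -/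
structure LocU (N : ℕ) (δ : ℤ) (V : Finset (Gen n)) (dg : Gen n → ℤ) (a b : ℕ) : Prop where
  nice : Nice V
  pos : 0 < N
  two : 2 ∣ N
  fix : ∀ p : ℕ, p.Prime → p ∣ N → ((0, none), p) ∈ V ∧ dg ((0, none), p) = jacobiSym p a ∧
    ∃ (e : ℕ) (d : ℤ), δ = p ^ (2 * e + 1) * d ∧ ¬(p : ℤ) ∣ d
  ha : a = ∏ x ∈ V.filter (fun x => x.1.1 = 1), x.2
  hb : b = ∏ x ∈ V.filter (fun x => x.1.1 = 2), x.2
  hd : (a : ℤ) - b = δ * ∏ x ∈ zer N V, (x.2 : ℤ)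
  d0 : δ ≠ 0
  dN : ∀ p : ℕ, p.Prime → (p : ℤ) ∣ δ → p ∣ N
  a4 : a % 4 = 1
  d7 : (128 : ℤ) ∣ δ
  dg : ∀ x ∈ V, x ≠ neg → ¬x.2 ∣ N → dg x = jacobiSym (![(a : ℤ), b, -a] x.1.1) x.2

/-- the hypotheses of the main theorem -/
structure Surf.HypU (F : Surf n) (r : ℕ) : Prop where
  ev : Even n
  c0 : ∀ i, F.c i ≠ 0
  ne : ∀ j k, j ≠ k → F.L j (F.root k) ≠ 0
  sum : ∀ v : ℚ × ℚ, F.D 0 v = F.D 1 v - F.D 2 v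
  pos : ∃ k, 0 < F.gam (0, k)
  unr : ∀ p : ℕ, p.Prime → ∃ (k : Fin n) (c : ℤ), ¬(p : ℤ) ∣ c ∧ (p = 2 → c % 4 = 1) ∧
    IsSquare (F.gam (0, k) * c)
  card : {y | ∃ u, F.InS u y}.ncard = 2 ^ (r + 2)
  sol : ∀ u y, F.InS u y → Cover (F.D 1 ((RatFunc.X : RatFunc ℚ), 1)) (F.D 2 (RatFunc.X, 1))
    (F.del u y 2 (RatFunc.X, 1)) (F.del u y 1 (RatFunc.X, 1))

structure Base.OkU (F : Surf n) (B : Base n) : Prop where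
  pos : 0 < B.N
  two : 2 ∣ B.N
  l0 : ∀ j, F.LZ j B.v0 = B.μ j * B.a j
  l1 : ∀ j, F.LZ j B.v1 = B.μ j * B.a j * B.e j
  prim : IsCoprime B.v0.1 B.v0.2
  ne : ∀ j k, j ≠ k → B.e j ≠ B.e k
  m0 : ∀ j, B.μ j ≠ 0
  d0 : B.δ ≠ 0
  cN : ∀ i, ∀ p : ℕ, p.Prime → (p : ℤ) ∣ F.c i → p ∣ B.N
  rN : ∀ j k, j ≠ k → ∀ p : ℕ, p.Prime → (p : ℤ) ∣ F.LZ j (F.rootZ k) → p ∣ B.N
  mN : ∀ j, ∀ p : ℕ, p.Prime → (p : ℤ) ∣ B.μ j → p ∣ B.N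
  dN : ∀ p : ℕ, p.Prime → (p : ℤ) ∣ B.δ → p ∣ B.N
  p0 : F.c 0 * ∏ k, B.μ (0, k) = B.g ^ 2 * B.δ
  p1 : F.c 1 * ∏ k, B.μ (1, k) = B.g ^ 2
  p2 : F.c 2 * ∏ k, B.μ (2, k) = B.g ^ 2
  sqf : ∀ j, Squarefree (B.a j)
  cop : ∀ j k, j ≠ k → (B.a j).Coprime (B.a k)
  aN : ∀ j, (B.a j).Coprime B.N
  odd : ∀ p : ℕ, p.Prime → p ∣ B.N → ∃ (e : ℕ) (d : ℤ), B.δ = p ^ (2 * e + 1) * d ∧ ¬(p : ℤ) ∣ d
  a4 : (∏ k, B.a (1, k)) % 4 = 1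
  d7 : (128 : ℤ) ∣ B.δ

/-- the data of the analytic part -/
def Base.datU (F : Surf n) (B : Base n) (M : ℕ) : Dat n :=
  { B.dat F M with
    dg := fun x => if x.1.2 = none ∧ x.2 ∣ B.N then jacobiSym x.2 (∏ k, B.a (1, k))
      else (B.dat F M).dg x }

/-- the product of the diagonal over the primes of class zero -/
def Base.sign (F : Surf n) (B : Base n) : ℤ :=
  (∏ p ∈ B.N.primeFactors, jacobiSym p (∏ k, B.a (1, k))) *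
    ∏ k, jacobiSym (F.cZ (0, k)) (B.a (0, k))

/-- the local conditions -/
def LOCUStmt : Prop := ∀ (n N : ℕ) (δ : ℤ) (V : Finset (Gen n)) (dg : Gen n → ℤ) (a b : ℕ),
  LocU N δ V dg a b → ∀ d₂ d₃ : ℚ, d₂ ≠ 0 → d₃ ≠ 0 → ELS a b d₂ d₃ →
    ∃ y ∈ Ker (gp dg) V, IsSquare (d₂ * (Gv 2 y : ℚ)) ∧ IsSquare (d₃ * (Gv 1 y : ℚ))

/-- the parity of the corank -/
def PARUStmt : Prop := ∀ (n N : ℕ) (δ : ℤ) (V : Finset (Gen n)) (dg : Gen n → ℤ) (a b : ℕ),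
  LocU N δ V dg a b → ∃ κ : ℕ, (Ker (gp dg) V).card = 2 ^ κ ∧ κ % 2 =
    (V.card + if ∏ x ∈ V.filter (fun x => x.1.1 = 0 ∧ x ≠ neg), dg x = 1 then 0 else 1) % 2

def ALGUStmt : Prop := ∀ (n N : ℕ) (δ : ℤ) (V : Finset (Gen n)) (dg : Gen n → ℤ) (a b : ℕ) (q : ℚ)
  (r : ℕ) (ι : Type) (I : Finset ι) (d₂ d₃ : ι → ℚ), LocU N δ V dg a b → q ≠ 0 →
  I.card = 2 ^ (r + 2) →
  (∀ i ∈ I, d₂ i ≠ 0 ∧ d₃ i ≠ 0 ∧ Cover (q ^ 2 * a) (q ^ 2 * b) (d₂ i) (d₃ i)) →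
  (∀ i ∈ I, ∀ j ∈ I, IsSquare (d₂ i * d₂ j) → IsSquare (d₃ i * d₃ j) → i = j) →
  (Ker (gp dg) V).card ≤ 2 ^ (r + 2) → Good r (curve (q ^ 2 * a) (q ^ 2 * b))

/-- both parities occur at squarefree values of a product of affine forms -/
def PTYUStmt : Prop := ∀ (I : Type) [Fintype I] [Nonempty I], ∃ P₁ : ℕ,
  ∀ (Q : ℕ) (α : I → ℕ) (β b : I → ℤ) (β₀ : ℕ) (b₀ : ℤ) (ε : ℕ), 0 < Q →
  (∀ p : ℕ, p.Prime → p ≤ P₁ → p ∣ Q) →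
  (∀ i, 0 < α i ∧ Q ∣ α i ∧ (∀ p : ℕ, p.Prime → p ∣ α i → p ∣ Q) ∧ (Q : ℤ) ∣ β i ∧
    ∀ p : ℕ, p.Prime → p ∣ Q → ¬(p : ℤ) ∣ b i) →
  0 < β₀ → Q ∣ β₀ → (∀ p : ℕ, p.Prime → p ∣ β₀ → p ∣ Q) →
  (∀ p : ℕ, p.Prime → p ∣ Q → ¬(p : ℤ) ∣ b₀) →
  ∃ (x y : ℤ) (t : ℕ) (a : I → ℕ), (t : ℤ) = b₀ + β₀ * y ∧
    (∀ i, (a i : ℤ) = b i + α i * x + β i * y) ∧ Squarefree t ∧
    (∀ i, Squarefree (a i) ∧ (a i).Coprime t) ∧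
    (t.primeFactors.card + ∑ i, (a i).primeFactors.card) % 2 = ε % 2

/-- a point that is close to an unramified fibre at every prime of `N` -/
def APXStmt : Prop := ∀ (n r : ℕ) (F : Surf n), F.HypU r → ∀ N : ℕ, 0 < N → ∃ v : ℤ × ℤ,
  ∀ p : ℕ, p.Prime → p ∣ N → ¬((p : ℤ) ∣ v.1 ∧ (p : ℤ) ∣ v.2) ∧ ∃ (e e' : ℕ) (d d' : ℤ),
    F.DZ 1 v = p ^ (2 * e) * d ∧ ¬(p : ℤ) ∣ d ∧ (p = 2 → d % 4 = 1) ∧
    F.DZ 0 v = p ^ (2 * e' + 1) * d' ∧ ¬(p : ℤ) ∣ d' ∧ e + 3 ≤ e'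

/-- base points of both parities in one residue class -/
def BASEUStmt : Prop := ∀ (n r : ℕ) (F : Surf n), F.HypU r → ∃ (N : ℕ) (b : Ix n → ℤ), ∀ ε : ℕ,
  ∃ B : Base n, B.OkU F ∧ B.N = N ∧ (∀ j, ((128 * N : ℕ) : ℤ) ∣ B.a j - b j) ∧
    (∑ j, (B.a j).primeFactors.card) % 2 = ε % 2

/-- the point that belongs to an admissible tuple -/
def PTUStmt : Prop := ∀ (n : ℕ) (F : Surf n) (B : Base n) (M : ℕ), 2 ≤ n → B.OkU F → B.Fits M →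
  ∀ l, Adm (B.datU F M) l →
    ∃ v : ℤ × ℤ, IsCoprime v.1 v.2 ∧ ∀ j, F.LZ j v = B.μ j * B.a j * l j

/-- the descent applies to admissible tuples -/
def BRUStmt : Prop := ∀ (n r : ℕ) (F : Surf n) (B : Base n) (M : ℕ), F.HypU r → B.OkU F →
  B.Fits M → (B.datU F M).Ok ∧ ∀ l, Adm (B.datU F M) l →
    LocU B.N B.δ ((B.datU F M).VV l) (B.datU F M).dg (B.pr l 1) (B.pr l 2) ∧
    ∏ x ∈ ((B.datU F M).VV l).filter (fun x => x.1.1 = 0 ∧ x ≠ neg), (B.datU F M).dg x =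
      B.sign F ∧
    ((B.datU F M).VV l).card = 1 + B.N.primeFactors.card + ∑ j, (B.a j).primeFactors.card +
      ∑ j, (l j).primeFactors.card

/-- base points with a prescribed parity of the corank -/
def SGNStmt : Prop := ∀ (n r : ℕ) (F : Surf n), F.HypU r → ∀ ε : ℕ, ∃ B : Base n, B.OkU F ∧
  (1 + B.N.primeFactors.card + ∑ j, (B.a j).primeFactors.card +
    if B.sign F = 1 then 0 else 1) % 2 = ε % 2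

/-- geometric classes satisfy the residue conditions -/
def GEOUStmt : Prop := ∀ (n r : ℕ) (F : Surf n) (B : Base n) (M : ℕ), F.HypU r → B.OkU F →
  (B.datU F M).Ok → (geoSet (B.datU F M)).card ≤ 2 ^ (r + 2)

/-- a small kernel gives a good fibre -/
def GOODUStmt : Prop := ∀ (n r : ℕ) (F : Surf n) (B : Base n) (M : ℕ), F.HypU r → B.OkU F →
  B.Fits M → ∀ l, Adm (B.datU F M) l → (∀ j, 1 < l j) →
    (Ker (B.datU F M).g ((B.datU F M).VV l)).card ≤ 2 ^ (r + 2) →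
    ∀ v : ℤ × ℤ, (∀ j, F.LZ j v = B.μ j * B.a j * l j) → v.2 ≠ 0 → Good r (F.fibre v)

open Classical in
def Main0UStmt : Prop := ∀ (n r : ℕ) (F : Surf n), F.HypU r → ∃ c : ℝ, 0 < c ∧
  ∀ᶠ H : ℕ in atTop, c * (H : ℝ) ^ 2 ≤ (((Icc (-H : ℤ) H ×ˢ Icc (-H : ℤ) H).filter
    fun v : ℤ × ℤ => IsCoprime v.1 v.2 ∧ Good r (F.fibre v)).card : ℝ)

def MainUStmt : Prop := ∀ (n r : ℕ) (F : Surf n), F.HypU r → ∃ c : ℝ, 0 < c ∧ ∀ᶠ H : ℕ in atTop,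
  ∃ T ⊆ Icc (-H : ℤ) H ×ˢ Icc (-H : ℤ) H, c * (H : ℝ) ^ 2 ≤ T.card ∧
    (∀ v ∈ T, IsCoprime v.1 v.2 ∧ Good r (F.fibre v)) ∧
    ∀ v ∈ T, ∀ w ∈ T, ∀ [(F.fibre v).IsElliptic] [(F.fibre w).IsElliptic],
      (F.fibre v).j = (F.fibre w).j → v = w

namespace Surf

variable {F : Surf n}

theorem HypU.two {r : ℕ} (h : F.HypU r) : 2 ≤ n := by
  obtain ⟨k, -⟩ := h.pos
  obtain ⟨m, hm⟩ := h.ev
  have := k.pos
  omega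

theorem HypU.res_ne {r : ℕ} (h : F.HypU r) {j k : Ix n} (hjk : j ≠ k) :
    F.LZ j (F.rootZ k) ≠ 0 := by
  have := h.ne j k hjk
  rw [L_root] at this
  exact_mod_cast this

theorem HypU.sumZ {r : ℕ} (h : F.HypU r) (v : ℤ × ℤ) : F.DZ 0 v = F.DZ 1 v - F.DZ 2 v := by
  have := h.sum (v.1, v.2)
  rw [D_cast, D_cast, D_cast] at this
  exact_mod_cast this

end Surf

end Pool.Agent.MP_a43263_nt.RG
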