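import Pool.Agent.MP_a43263_nt.RG.Pty
import Pool.Agent.MP_a43263_nt.RU.Spec

/-! RANKG, second version, row PTY: both parities occur at squarefree values of a product of
affine forms. -/

set_option autoImplicit false

noncomputable section

namespace Pool.Agent.MP_a43263_nt.RG

open Finset PtyAux

namespace PtyU

lemma not_dvd {Q p : ℕ} {x b : ℤ} (h : p ∣ Q) (hb : ¬(p : ℤ) ∣ b) (hx : (Q : ℤ) ∣ x - b) :
    ¬(p : ℤ) ∣ x := fun hd =>
  hb (dv (dvd_sub hd ((Int.natCast_dvd_natCast.2 h).trans hx)) (by ring))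

/-- the cube argument -/
lemma cube {I : Type} [Fintype I] (m d : ℕ) (hd : d = 2 ^ m) (φ : Fin d → I)
    (hφ : Function.Surjective φ) (Q : ℕ) (α : I → ℕ) (β b : I → ℤ) (β₀ : ℕ) (b₀ : ℤ) (c : ZMod 2)
    (h1 : ∀ p : ℕ, p.Prime → p ≤ 4 * Fintype.card (Finset (Fin d) × I) → p ∣ Q)
    (h2 : ∀ i, 0 < α i ∧ Q ∣ α i ∧ (∀ p : ℕ, p.Prime → p ∣ α i → p ∣ Q) ∧ (Q : ℤ) ∣ β i ∧
      ∀ p : ℕ, p.Prime → p ∣ Q → ¬(p : ℤ) ∣ b i)
    (h3 : Q ∣ β₀) (h4 : ∀ p : ℕ, p.Prime → p ∣ Q → ¬(p : ℤ) ∣ b₀)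
    (H : ∀ (x y : ℤ) (t : ℕ) (a : I → ℕ), (t : ℤ) = b₀ + β₀ * y →
      (∀ i, (a i : ℤ) = b i + α i * x + β i * y) → Squarefree t →
      (∀ i, Squarefree (a i) ∧ (a i).Coprime t) → om t + ∑ i, om (a i) = c)
    (y : ℤ) (t h : ℕ) (ht : (t : ℤ) = b₀ + β₀ * y)
    (hs : ∀ i ≤ d, Squarefree (t + i * (β₀ * ((∏ k, α k) * h)))) :
    om t = om (t + d * (β₀ * ((∏ k, α k) * h))) := by
  classical
  obtain ⟨A, hA⟩ : ∃ A, A = ∏ k, α k := ⟨_, rfl⟩
  obtain ⟨A', hA'⟩ : ∃ A' : I → ℕ, ∀ j, α j * A' j = A :=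
    ⟨fun j => ∏ k ∈ univ.erase j, α k, fun j => hA ▸ mul_prod_erase _ _ (mem_univ j)⟩
  rw [← hA] at hs ⊢
  have h3' : (Q : ℤ) ∣ β₀ := Int.natCast_dvd_natCast.2 h3
  have hα : ∀ j, (Q : ℤ) ∣ α j := fun j => Int.natCast_dvd_natCast.2 (h2 j).2.1
  have ht' : ∀ i : ℕ, ((t + i * (β₀ * (A * h)) : ℕ) : ℤ) = b₀ + β₀ * (y + i * (A * h)) := fun i => by
    push_cast
    rw [ht]
    ring
  let G := ∏ i ∈ range (d + 1), (t + i * (β₀ * (A * h)))
  have hG : G ≠ 0 := prod_ne_zero_iff.2 fun i hi =>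
    (hs i (Nat.lt_succ_iff.1 (mem_range.1 hi))).ne_zero
  let γ : Finset (Fin d) × I → ℤ := fun x =>
    b x.2 + β x.2 * y + ∑ i ∈ x.1, (β x.2 * (A * h) - α x.2 * (h * A' (φ i) * β (φ i)))
  have hGQ : ∀ p : ℕ, p.Prime → p ∣ G → ¬p ∣ Q := fun p hp hd hq => by
    obtain ⟨i, -, hi⟩ := (Nat.Prime.prime hp).exists_mem_finset_dvd hd
    refine not_dvd hq (h4 p hp hq) ?_ (Int.natCast_dvd_natCast.2 hi)
    rw [ht', add_sub_cancel_left]
    exact h3'.mul_right _
  obtain ⟨u₀, hu⟩ := avoid (fun x => A' x.2 * γ x) A G (fun p hp hd => ⟨fun e => by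
    rw [hA] at e
    obtain ⟨i, -, hi⟩ := (Nat.Prime.prime hp).exists_mem_finset_dvd e
    exact hGQ p hp hd ((h2 i).2.2.1 p hp hi), by
    by_contra hc
    exact hGQ p hp hd (h1 p hp (by omega))⟩) hG
  have hu₀ : ∀ x, ∀ p : ℕ, p.Prime → p ∣ G → ¬(p : ℤ) ∣ α x.2 * u₀ + γ x := fun x p hp hd e =>
    hu x p hp hd (dv (e.mul_left (A' x.2)) (by rw [← hA' x.2]; push_cast; ring))
  have hγ : ∀ x, (Q : ℤ) ∣ α x.2 * u₀ + γ x - b x.2 := fun x =>
    dv (dvd_add (dvd_add ((hα x.2).mul_right u₀) ((h2 x.2).2.2.2.1.mul_right y))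
      (dvd_sum (s := x.1) fun i _ => dvd_sub ((h2 x.2).2.2.2.1.mul_right ((A : ℤ) * h))
        ((hα x.2).mul_right (h * A' (φ i) * β (φ i))))) (by simp only [γ]; ring)
  obtain ⟨u, a, ha⟩ := sqf (fun x => α x.2 * G) (fun x => α x.2 * u₀ + γ x)
    (fun x => Nat.mul_pos (h2 x.2).1 (Nat.pos_of_ne_zero hG))
    (fun x p hp hle => ((h1 p hp hle).trans (h2 x.2).2.1).mul_right _)
    fun x p hp hd => ((Nat.Prime.dvd_mul hp).1 hd).elim
      (fun hq => not_dvd ((h2 x.2).2.2.1 p hp hq)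
        ((h2 x.2).2.2.2.2 p hp ((h2 x.2).2.2.1 p hp hq)) (hγ x)) (hu₀ x p hp)
  have key : ∀ S : Finset (Fin d),
      om (t + S.card * (β₀ * (A * h))) + ∑ j, om (a (S, j)) = c := by
    intro S
    have hS : S.card ≤ d := by simpa using card_le_univ S
    refine H (u₀ + G * u - ∑ i ∈ S, h * A' (φ i) * β (φ i)) _ _ (fun j => a (S, j)) (ht' _)
      (fun j => ?_) (hs _ hS) fun j => ⟨(ha _).2, ?_⟩
    · rw [(ha _).1]
      simp only [γ, sum_sub_distrib, sum_const, nsmul_eq_mul, ← mul_sum]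
      push_cast; ring
    · refine Nat.coprime_of_dvd fun p hp hpa hpt => ?_
      have hpG : p ∣ G := hpt.trans (dvd_prod_of_mem (fun i => t + i * (β₀ * (A * h)))
        (mem_range.2 (Nat.lt_succ_of_le hS)))
      have h3 : (p : ℤ) ∣ a (S, j) := Int.natCast_dvd_natCast.2 hpa
      rw [(ha _).1] at h3
      exact hu₀ _ p hp hpG ((dvd_add_right
        ((Int.natCast_dvd_natCast.2 (hpG.mul_left (α j))).mul_right _)).1 h3)
  have z1 : ∀ j, ∑ S ∈ (univ : Finset (Fin d)).powerset, om (a (S, j)) = 0 := by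
    intro j
    obtain ⟨i, rfl⟩ := hφ j
    rw [← insert_erase (mem_univ i), sum_powerset_insert (notMem_erase i _)]
    have : ∑ S ∈ (univ.erase i).powerset, om (a (insert i S, φ i)) =
        ∑ S ∈ (univ.erase i).powerset, om (a (S, φ i)) := by
      refine sum_congr rfl fun S hS => congrArg om ?_
      have hi : i ∉ S := fun hi => notMem_erase i _ (mem_powerset.1 hS hi)
      have : (a (insert i S, φ i) : ℤ) = a (S, φ i) := by
        have e : (A : ℤ) = α (φ i) * A' (φ i) := by exact_mod_cast (hA' (φ i)).symm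
        rw [(ha _).1, (ha _).1]
        simp only [γ, sum_insert hi]
        linear_combination (β (φ i) * h) * e
      exact_mod_cast this
    rw [this, CharTwo.add_self_eq_zero]
  have two : ∀ (n : ℕ) (x : ZMod 2), 2 ∣ n → n • x = 0 := fun n x hn => by
    rw [nsmul_eq_mul, (ZMod.natCast_eq_zero_iff n 2).2 hn, zero_mul]
  have hd0 : 0 < d := by rw [hd]; positivity
  have z2 : ∑ S ∈ (univ : Finset (Fin d)).powerset, om (t + S.card * (β₀ * (A * h))) = 0 := by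
    have := sum_congr (rfl : (univ : Finset (Fin d)).powerset = _) fun S _ => key S
    rw [sum_add_distrib, sum_comm, sum_eq_zero (s := univ) fun j _ => z1 j, add_zero,
      sum_const] at this
    rw [this]
    exact two _ _ (by rw [card_powerset]; exact dvd_pow_self 2 (by simpa using hd0.ne'))
  rw [sum_powerset_apply_card (fun i => om (t + i * (β₀ * (A * h)))), card_univ, Fintype.card_fin,
    sum_range_succ, sum_eq_single 0 (fun i hi hi0 => two _ _
      (hd ▸ Nat.prime_two.dvd_choose_pow hi0 (hd ▸ (mem_range.1 hi).ne)))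
      fun h0 => (h0 (mem_range.2 hd0)).elim] at z2
  simp only [Nat.choose_zero_right, Nat.choose_self, one_smul, zero_mul, add_zero] at z2
  exact (CharTwo.add_eq_zero).1 z2

end PtyU

theorem ptyU : PTYUStmt := by
  intro I _ _
  classical
  obtain ⟨d, hd⟩ : ∃ d, d = 2 ^ Fintype.card I := ⟨_, rfl⟩
  obtain ⟨φ, hφ⟩ : ∃ φ : Fin d → I, Function.Surjective φ := by
    obtain ⟨f⟩ : Nonempty (I ↪ Fin d) := Function.Embedding.nonempty_of_card_le
      (by simpa [hd] using Nat.lt_two_pow_self.le)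
    exact ⟨_, Function.invFun_surjective f.injective⟩
  refine ⟨4 * Fintype.card (Finset (Fin d) × I) + 4 * Fintype.card (Fin d × Bool) + d + 4,
    fun Q α β b β₀ b₀ ε hQ h1 h2 h3 h4 h5 h6 => ?_⟩
  by_contra hc
  have H : ∀ (x y : ℤ) (t : ℕ) (a : I → ℕ), (t : ℤ) = b₀ + β₀ * y →
      (∀ i, (a i : ℤ) = b i + α i * x + β i * y) → Squarefree t →
      (∀ i, Squarefree (a i) ∧ (a i).Coprime t) → om t + ∑ i, om (a i) = (ε : ZMod 2) + 1 := by
    intro x y t a ht ha hq hb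
    by_contra hne
    refine hc ⟨x, y, t, a, ht, ha, hq, hb, ?_⟩
    rw [← ZMod.natCast_eq_natCast_iff']
    push_cast
    change om t + ∑ i, om (a i) = _
    generalize om t + ∑ i, om (a i) = x at hne
    generalize (ε : ZMod 2) = y at hne
    revert x y; decide
  have hcube := PtyU.cube _ d hd φ hφ Q α β b β₀ b₀ _ (fun p hp hle => h1 p hp (by omega)) h2 h4
    h6 H
  obtain ⟨A, hA⟩ : ∃ A, A = ∏ k, α k := ⟨_, rfl⟩
  rw [← hA] at hcube
  have hA0 : 0 < A := hA ▸ prod_pos fun i _ => (h2 i).1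
  have hAQ : ∀ p : ℕ, p.Prime → p ∣ A → p ∣ Q := fun p hp e => by
    rw [hA] at e
    obtain ⟨i, -, hi⟩ := (Nat.Prime.prime hp).exists_mem_finset_dvd e
    exact (h2 i).2.2.1 p hp hi
  have h4' : (Q : ℤ) ∣ β₀ := Int.natCast_dvd_natCast.2 h4
  have hd0 : 0 < d := by rw [hd]; positivity
  obtain ⟨y, t, ht, hts⟩ : ∃ y t : ℕ, (t : ℤ) = b₀ + β₀ * y ∧ Squarefree t := by
    obtain ⟨u, a, ha⟩ := sqf (ι := Unit) (fun _ => β₀) (fun _ => b₀) (fun _ => h3)
      (fun _ p hp hle => (h1 p hp (by rw [Fintype.card_unit] at hle; omega)).trans h4)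
      fun _ p hp e => h6 p hp (h5 p hp e)
    exact ⟨u, a (), by rw [(ha ()).1, add_comm], (ha ()).2⟩
  obtain ⟨q, hq, hqt, hq1⟩ := Nat.exists_prime_gt_modEq_one t
    (Nat.mul_pos hd0 (Nat.mul_pos h3 hA0)).ne'
  obtain ⟨c, hcq⟩ : d * (β₀ * A) ∣ q - 1 := (Nat.modEq_iff_dvd' hq.one_le).1 hq1.symm
  have hq2 : q = 1 + d * (β₀ * A) * c := by have := hq.one_le; omega
  have hq3 : ((q * t : ℕ) : ℤ) = b₀ + β₀ * (y + d * A * c * t) := by
    rw [hq2]; push_cast; linear_combination ht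
  have hq4 : q.Coprime t := (Nat.coprime_of_lt_prime hts.ne_zero hqt hq)
  obtain ⟨u, a, ha⟩ := sqf (ι := Fin d × Bool) (fun x => (x.1 + 1) * (β₀ * A))
    (fun x => if x.2 then ((q * t : ℕ) : ℤ) else t + (x.1 + 1 : ℕ) * (β₀ * (A * (c * t))))
    (fun _ => Nat.mul_pos (Nat.succ_pos _) (Nat.mul_pos h3 hA0))
    (fun _ p hp hle => (((h1 p hp (by omega)).trans h4).mul_right _).mul_left _)
    fun x p hp hdv => by
      have hpQ : p ∣ Q := ((Nat.Prime.dvd_mul hp).1 hdv).elim (fun e => h1 p hp (by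
        have := Nat.le_of_dvd (Nat.succ_pos _) e
        have := x.1.2
        omega)) fun e => ((Nat.Prime.dvd_mul hp).1 e).elim (h5 p hp) (hAQ p hp)
      refine PtyU.not_dvd hpQ (h6 p hp hpQ) ?_
      split_ifs
      · rw [hq3, add_sub_cancel_left]
        exact h4'.mul_right _
      · exact dv (h4'.mul_right (y + (x.1 + 1 : ℕ) * (A * (c * t)))) (by rw [ht]; ring)
  have hsq : Squarefree (q * t) := (Nat.squarefree_mul hq4).2 ⟨hq.squarefree, hts⟩
  have e1 := hcube _ (q * t) u hq3 fun i hi => by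
    rcases i with _ | i
    · simpa using hsq
    · obtain ⟨e, hs⟩ := ha (⟨i, hi⟩, true)
      convert hs using 1
      simp only [if_true] at e
      zify
      rw [e]; push_cast; ring
  have e2 := hcube _ t (u + c * t) ht fun i hi => by
    rcases i with _ | i
    · simpa using hts
    · obtain ⟨e, hs⟩ := ha (⟨i, hi⟩, false)
      convert hs using 1
      simp only [Bool.false_eq_true, if_false] at e
      zify
      rw [e]; push_cast; ring
  have e3 : t + d * (β₀ * (A * (u + c * t))) = q * t + d * (β₀ * (A * u)) := by rw [hq2]; ring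
  rw [e3, ← e1, om, om, hq4.primeFactors_mul, card_union_of_disjoint hq4.disjoint_primeFactors,
    hq.primeFactors, card_singleton] at e2
  simp at e2

end Pool.Agent.MP_a43263_nt.RG
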