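import Pool.Agent.MP_a43263_nt.RU.Spec
import Pool.Agent.MP_a43263_nt.RG.Alg

/-! PROJECT RANKG, second version: a small kernel gives the rank and a trivial 2-part of the
Tate-Shafarevich group. -/

set_option autoImplicit false

namespace Pool.Agent.MP_a43263_nt.RG

open Two R2.Desc
open R2 (Ecv Sol2 ELS Ker SHAStmt)
open AlgAux

theorem algU : KCStmt → SHAStmt → RANKStmt → LOCUStmt → ALGUStmt := by
  intro kc sha rank loc n N δ V dg a b q r ι I d₂ d₃ hL hq hI hg hi hK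
  classical
  have h0 : ∀ i : Fin 3, i ≠ 0 → ∏ x ∈ V.filter (fun x => x.1.1 = i), x.2 ≠ 0 := fun i hi =>
    Finset.prod_ne_zero_iff.2 fun x hx => ((hL.nice.pr x (Finset.mem_filter.1 hx).1).resolve_left
      fun e => hi ((Finset.mem_filter.1 hx).2.symm.trans (by rw [e]; rfl))).ne_zero
  have ha : (a : ℚ) ≠ 0 := Nat.cast_ne_zero.2 (hL.ha ▸ h0 1 (by decide))
  have hb : (b : ℚ) ≠ 0 := Nat.cast_ne_zero.2 (hL.hb ▸ h0 2 (by decide))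
  have hab : (a : ℚ) ≠ b := by
    intro h
    have h0 := hL.hd
    rw [Nat.cast_injective h, sub_self] at h0
    refine mul_ne_zero hL.d0 (Finset.prod_ne_zero_iff.2 fun x hx => ?_) h0.symm
    obtain ⟨hx, -, hn, -⟩ := Finset.mem_filter.1 hx
    exact Nat.cast_ne_zero.2 ((hL.nice.pr x hx).resolve_left hn).ne_zero
  have hq2 := pow_ne_zero 2 hq
  have ha' := mul_ne_zero hq2 ha
  have hb' := mul_ne_zero hq2 hb
  have hab' : q ^ 2 * a ≠ q ^ 2 * b := fun h => hab (mul_left_cancel₀ hq2 h)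
  have hG : ∀ y ∈ Ker (gp dg) V, ∀ j, (Gv j y : ℚ) ≠ 0 := fun y hy j =>
    Int.cast_ne_zero.2 (Int.natAbs_ne_zero.1 ((kc n).2.2.1 V y j hL.nice
      (Finset.mem_powerset.1 (Finset.mem_filter.1 hy).1)).1.ne_zero)
  have els : ∀ e₂ e₃ : ℚ, Sol2 (q ^ 2 * a) (q ^ 2 * b) e₂ e₃ → ELS a b e₂ e₃ := fun e₂ e₃ h =>
    ⟨cast (unscale hq h) ℝ, fun p _ => cast (unscale hq h) ℚ_[p]⟩
  choose y hy h₂ h₃ using fun i (h : i ∈ I) =>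
    loc n N δ V dg a b hL _ _ (hg i h).1 (hg i h).2.1 (els _ _ (hg i h).2.2)
  have key : ∀ e₂ e₃ : ℚ, e₂ ≠ 0 → e₃ ≠ 0 → ELS a b e₂ e₃ →
      ∃ i ∈ I, IsSquare (e₂ * d₂ i) ∧ IsSquare (e₃ * d₃ i) := by
    intro e₂ e₃ n₂ n₃ h
    obtain ⟨z, hz, k₂, k₃⟩ := loc n N δ V dg a b hL _ _ n₂ n₃ h
    obtain ⟨i, hiI, rfl⟩ := Finset.surj_on_of_inj_on_of_card_le y hy (fun i j u v e =>
      hi i u j v (sq_of (hG _ (hy j v) 2) (e ▸ h₂ i u) (h₂ j v))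
        (sq_of (hG _ (hy j v) 1) (e ▸ h₃ i u) (h₃ j v))) (hK.trans_eq hI.symm) z hz
    exact ⟨i, hiI, sq_of (hG _ hz 2) k₂ (h₂ i hiI), sq_of (hG _ hz 1) k₃ (h₃ i hiI)⟩
  obtain ⟨hE, hr⟩ := rank _ _ r ι I d₂ d₃ ha' hb' hab' hI hg hi fun e₂ e₃ n₂ n₃ h =>
    key e₂ e₃ n₂ n₃ (els _ _ h)
  refine ⟨hE, hr, sha _ _ ha' hb' hab' fun e₂ e₃ n₂ n₃ h => ?_⟩
  obtain ⟨i, hiI, k₂, k₃⟩ := key e₂ e₃ n₂ n₃
    ⟨unscale' hq ℝ h.1, fun p _ => unscale' hq ℚ_[p] (h.2 p)⟩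
  obtain ⟨s, hs, f₂⟩ := split n₂ (hg i hiI).1 k₂
  obtain ⟨t, ht, f₃⟩ := split n₃ (hg i hiI).2.1 k₃
  exact R2.Loc.scale hs ht f₂ f₃ (hg i hiI).2.2

end Pool.Agent.MP_a43263_nt.RG
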