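import Mathlib.RingTheory.Ideal.Quotient.Operations
import Mathlib.RingTheory.UniqueFactorizationDomain.Multiplicity
import Pool.Agent.MP_a43263_nt.RU.Spec

/-! PROJECT RANKG, second version, row APX: a point that is close to an unramified fibre at every
prime of `N`. -/

set_option autoImplicit false

namespace Pool.Agent.MP_a43263_nt.RG

open Finset

namespace Apx

variable {n : ℕ} {p a b d : ℤ}

/-- the exact power of `p` survives a congruence modulo a higher power -/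
theorem shift {s E : ℕ} (h : a ≡ b [ZMOD p ^ E]) (hb : b = p ^ s * d) (hE : s + 2 ≤ E) :
    ∃ t, a = p ^ s * (d + p ^ 2 * t) := by
  obtain ⟨t, ht⟩ := h.symm.dvd
  obtain ⟨u, rfl⟩ := Nat.exists_eq_add_of_le hE
  exact ⟨p ^ u * t, by linear_combination ht + hb⟩

theorem not_dvd_shift (h : ¬p ∣ d) (t : ℤ) : ¬p ∣ d + p ^ 2 * t := fun k =>
  h ((dvd_add_left ((dvd_pow_self p two_ne_zero).mul_right t)).1 k)

theorem pow_unique (hp : p ≠ 0) {s t : ℕ} (ha : ¬p ∣ a) (hb : ¬p ∣ b) (h : p ^ s * a = p ^ t * b) :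
    s = t ∧ a = b := by
  have key : ∀ {s t : ℕ} {a b : ℤ}, ¬p ∣ a → p ^ s * a = p ^ t * b → ¬s < t := by
    intro s t a b ha h hlt
    obtain ⟨u, rfl⟩ := Nat.exists_eq_add_of_lt hlt
    refine ha ⟨p ^ u * b, mul_left_cancel₀ (pow_ne_zero s hp) ?_⟩
    rw [h]; ring
  obtain rfl : s = t := le_antisymm (not_lt.1 (key hb h.symm)) (not_lt.1 (key ha h))
  exact ⟨rfl, mul_left_cancel₀ (pow_ne_zero s hp) h⟩

/-- the shape of a number that is a square up to a unit -/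
theorem of_square (hp : Prime p) {c : ℤ} (ha : a ≠ 0) (hc : ¬p ∣ c) (h2 : p = 2 → c % 4 = 1)
    (h : IsSquare (a * c)) : ∃ (e : ℕ) (d : ℤ), a = p ^ (2 * e) * d ∧ ¬p ∣ d ∧
      (p = 2 → d % 4 = 1) := by
  obtain ⟨t, ht⟩ := h
  have c0 : c ≠ 0 := fun e => hc (e ▸ dvd_zero p)
  have t0 : t ≠ 0 := fun e => mul_ne_zero ha c0 (by rw [ht, e, mul_zero])
  obtain ⟨s, d, hd, rfl⟩ := WfDvdMonoid.max_power_factor' ha hp.not_isUnit
  obtain ⟨e, u, hu, rfl⟩ := WfDvdMonoid.max_power_factor' t0 hp.not_isUnit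
  obtain ⟨rfl, h3⟩ := pow_unique hp.ne_zero (s := s) (t := 2 * e) (a := d * c) (b := u * u)
    (fun k => (hp.dvd_or_dvd k).elim hd hc) (fun k => (hp.dvd_or_dvd k).elim hu hu)
    (by linear_combination ht)
  refine ⟨e, d, rfl, hd, fun h => ?_⟩
  have h4 := h2 h
  subst h
  obtain ⟨w, rfl⟩ : ∃ w, u = 2 * w + 1 := ⟨u / 2, by omega⟩
  obtain ⟨x, rfl⟩ : ∃ x, c = 4 * x + 1 := ⟨c / 4, by omega⟩
  have : d = 4 * (w * w + w - d * x) + 1 := by linear_combination h3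
  omega

theorem crt (N : ℕ) (E : ℕ → ℕ) (x : ℕ → ℤ) :
    ∃ y : ℤ, ∀ p ∈ N.primeFactors, y ≡ x p [ZMOD (p : ℤ) ^ E p] := by
  obtain ⟨y, hy⟩ := Ideal.exists_forall_sub_mem_ideal (ι := N.primeFactors)
    (I := fun p => Ideal.span {((p : ℕ) : ℤ) ^ E p}) (fun p q h => by
      refine (Ideal.isCoprime_span_singleton_iff _ _).2 (IsCoprime.pow ?_)
      exact Nat.isCoprime_iff_coprime.2 ((Nat.coprime_primes (Nat.prime_of_mem_primeFactors p.2)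
        (Nat.prime_of_mem_primeFactors q.2)).2 fun e => h (Subtype.ext e))) fun p => x p
  exact ⟨y, fun p hp => (Int.modEq_iff_dvd.2 (Ideal.mem_span_singleton.1 (hy ⟨p, hp⟩))).symm⟩

theorem LZ_modEq (F : Surf n) (j : Ix n) {v w : ℤ × ℤ} {q : ℤ} (h1 : v.1 ≡ w.1 [ZMOD q])
    (h2 : v.2 ≡ w.2 [ZMOD q]) : F.LZ j v ≡ F.LZ j w [ZMOD q] :=
  (h1.mul_left _).add (h2.mul_left _)

theorem prod_modEq {ι : Type} (s : Finset ι) {f g : ι → ℤ} {q : ℤ} (h : ∀ i, f i ≡ g i [ZMOD q]) :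
    ∏ i ∈ s, f i ≡ ∏ i ∈ s, g i [ZMOD q] := by
  classical
  induction s using Finset.induction_on with
  | empty => rfl
  | insert i s hi ih => rw [prod_insert hi, prod_insert hi]; exact (h i).mul ih

/-- one prime -/
theorem loc {r : ℕ} {F : Surf n} (hF : F.HypU r) (p : ℕ) (hp : p.Prime) :
    ∃ (z : ℤ × ℤ) (E : ℕ), ∀ v : ℤ × ℤ, v.1 ≡ z.1 [ZMOD (p : ℤ) ^ E] → v.2 ≡ z.2 [ZMOD (p : ℤ) ^ E] →
      ¬((p : ℤ) ∣ v.1 ∧ (p : ℤ) ∣ v.2) ∧ ∃ (e e' : ℕ) (d d' : ℤ),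
      F.DZ 1 v = p ^ (2 * e) * d ∧ ¬(p : ℤ) ∣ d ∧ (p = 2 → d % 4 = 1) ∧
      F.DZ 0 v = p ^ (2 * e' + 1) * d' ∧ ¬(p : ℤ) ∣ d' ∧ e + 3 ≤ e' := by
  obtain ⟨k0, c, hc, hc2, hsq⟩ := hF.unr p hp
  have hp' : Prime (p : ℤ) := Nat.prime_iff_prime_int.1 hp
  have n1 : ∀ k, ((1, k) : Ix n) ≠ (0, k0) := fun k e => by simp at e
  have hg0 : 0 < Int.gcd (F.A (0, k0)) (F.B (0, k0)) := by
    rw [Int.gcd_pos_iff]
    by_contra h
    push Not at h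
    exact hF.res_ne (n1 k0) (by simp [Surf.LZ, Surf.rootZ, h.1, h.2])
  obtain ⟨g0, α, β, -, hαβ, hA, hB⟩ := Int.exists_gcd_one' hg0
  obtain ⟨x, y, hxy⟩ := Int.isCoprime_iff_gcd_eq_one.2 hαβ
  have hL : ∀ j, F.LZ j (F.rootZ (0, k0)) = g0 * F.LZ j (β, -α) := fun j => by
    simp only [Surf.LZ, Surf.rootZ, hA, hB]; ring
  have gm : ∀ j, j ≠ (0, k0) → F.LZ j (β, -α) ≠ 0 := fun j h =>
    right_ne_zero_of_mul (hL j ▸ hF.res_ne h)
  have gg : (g0 : ℤ) ≠ 0 := left_ne_zero_of_mul (hL _ ▸ hF.res_ne (n1 k0))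
  have hs : IsSquare (F.DZ 1 (β, -α) * c) := by
    have e1 : F.gam (0, k0) = (F.DZ 1 (F.rootZ (0, k0)) : ℚ) := by simp [Surf.gam, Surf.D_root]
    have e2 : F.DZ 1 (F.rootZ (0, k0)) = g0 ^ n * F.DZ 1 (β, -α) := by
      simp only [Surf.DZ, hL, prod_mul_distrib, prod_const, card_univ, Fintype.card_fin]; ring
    obtain ⟨m, hm⟩ := hF.ev
    obtain ⟨q, hq⟩ := hsq
    have h0 : (g0 : ℚ) ≠ 0 := by exact_mod_cast gg
    refine Rat.isSquare_intCast_iff.1 ⟨q / g0 ^ m, ?_⟩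
    have e3 : (g0 : ℤ) ^ n = g0 ^ m * g0 ^ m := by rw [← pow_add, ← hm]
    rw [e1, e2, e3] at hq
    push_cast at hq ⊢
    field_simp
    linear_combination hq
  obtain ⟨e, d, h1, h2, h3⟩ := of_square hp'
    (mul_ne_zero (hF.c0 1) (prod_ne_zero_iff.2 fun k _ => gm _ (n1 k))) hc
    (fun h => hc2 (by exact_mod_cast h)) hs
  obtain ⟨f, R, h4, h5⟩ := WfDvdMonoid.max_power_factor'
    (a₀ := F.c 0 * ∏ k ∈ univ.erase k0, F.LZ (0, k) (β, -α)) (mul_ne_zero (hF.c0 0)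
      (prod_ne_zero_iff.2 fun k hk => gm _ fun e => ne_of_mem_erase hk (Prod.mk.inj e).2))
    hp'.not_isUnit
  obtain ⟨f', g, h6, h7⟩ := WfDvdMonoid.max_power_factor' gg hp'.not_isUnit
  obtain ⟨m, hm⟩ : ∃ m, m = f + f' + 1 + 2 * (e + 3) := ⟨_, rfl⟩
  refine ⟨(β + p ^ m * x, -α + p ^ m * y), m + f' + 2, fun v k1 k2 => ?_⟩
  have k0' : (p : ℤ) ^ m ∣ p ^ (m + f' + 2) := pow_dvd_pow _ (by omega)
  have k3 : v.1 ≡ β [ZMOD (p : ℤ) ^ m] :=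
    (k1.of_dvd k0').trans (Int.modEq_iff_dvd.2 ⟨-x, by ring⟩)
  have k4 : v.2 ≡ -α [ZMOD (p : ℤ) ^ m] :=
    (k2.of_dvd k0').trans (Int.modEq_iff_dvd.2 ⟨-y, by ring⟩)
  have k5 : ∀ j, F.LZ j v ≡ F.LZ j (β, -α) [ZMOD (p : ℤ) ^ m] := fun j => LZ_modEq F j k3 k4
  obtain ⟨t1, e1⟩ := shift (a := F.DZ 1 v) ((prod_modEq univ fun k => k5 (1, k)).mul_left (F.c 1))
    h1 (by omega)
  obtain ⟨t2, e2⟩ := shift ((prod_modEq (univ.erase k0) fun k => k5 (0, k)).mul_left (F.c 0))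
    h5 (by omega)
  obtain ⟨t3, e3⟩ := shift (s := m + f') (d := g) (LZ_modEq F (0, k0) k1 k2) (by
    simp only [Surf.LZ, hA, hB]
    linear_combination (p : ℤ) ^ m * g0 * hxy + (p : ℤ) ^ m * h7) le_rfl
  refine ⟨fun ⟨d1, d2⟩ => ?_, e, f + f' + e + 3, _, (R + p ^ 2 * t2) * (g + p ^ 2 * t3), e1,
    not_dvd_shift h2 _, fun h => ?_, ?_,
    fun k => (hp'.dvd_or_dvd k).elim (not_dvd_shift h4 _) (not_dvd_shift h6 _), by omega⟩
  · have q : (p : ℤ) ∣ p ^ m := dvd_pow_self _ (by omega)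
    have q1 := (k3.of_dvd q).dvd_iff.1 d1
    have q2 := dvd_neg.1 ((k4.of_dvd q).dvd_iff.1 d2)
    exact hp'.not_dvd_one (hxy ▸ dvd_add (q2.mul_left x) (q1.mul_left y))
  · have := h3 (by exact_mod_cast h)
    subst h
    push_cast
    omega
  · rw [Surf.DZ, ← prod_erase_mul _ _ (mem_univ k0), ← mul_assoc, e2, e3, hm]
    ring

end Apx

theorem apx : APXStmt := by
  intro n r F hF N hN
  choose! z E h using Apx.loc hF
  obtain ⟨x, hx⟩ := Apx.crt N E fun p => (z p).1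
  obtain ⟨y, hy⟩ := Apx.crt N E fun p => (z p).2
  refine ⟨(x, y), fun p hp hd => ?_⟩
  have := Nat.mem_primeFactors.2 ⟨hp, hd, hN.ne'⟩
  exact h p hp (x, y) (hx p this) (hy p this)

end Pool.Agent.MP_a43263_nt.RG
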