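import Pool.Agent.MP_a43263_nt.RU.Spec
import Pool.Agent.MP_a43263_nt.RG.Base
import Mathlib.Algebra.BigOperators.ModEq

/-! PROJECT RANKG, second version, row BASE: base points of both parities in one residue class. -/

set_option autoImplicit false

namespace Pool.Agent.MP_a43263_nt.RG

open Finset Bas

namespace BasU

/-- exact power of `p` -/
def Ex (p e : ℕ) (z : ℤ) : Prop := ∃ d : ℤ, z = p ^ e * d ∧ ¬(p : ℤ) ∣ d

/-- prime to `N` -/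
def Pr (N : ℕ) (z : ℤ) : Prop := ∀ p : ℕ, p.Prime → p ∣ N → ¬(p : ℤ) ∣ z

variable {N p e : ℕ} {y z : ℤ}

theorem Pr.prod {ι : Type} (s : Finset ι) {f : ι → ℤ} (h : ∀ i ∈ s, Pr N (f i)) :
    Pr N (∏ i ∈ s, f i) := fun p hp hN hd => by
  obtain ⟨i, hi, k⟩ := ((Nat.prime_iff_prime_int.1 hp).dvd_finsetProd_iff f).1 hd
  exact h i hi p hp hN k

theorem split_nat (N z : ℕ) : z ≠ 0 → ∃ m b : ℤ, (z : ℤ) = m * b ∧ Gd N m ∧ Pr N b ∧ 0 < m := by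
  induction z using induction_on_primes with
  | zero => exact fun h => absurd rfl h
  | one => exact fun _ => ⟨1, 1, by simp, gd_one, fun p hp _ k =>
      hp.ne_one (Nat.dvd_one.1 (by exact_mod_cast k)), one_pos⟩
  | prime_mul q a hq ih =>
    intro h
    obtain ⟨m, b, h1, h2, h3, h4⟩ := ih (right_ne_zero_of_mul h)
    by_cases k : q ∣ N
    · refine ⟨q * m, b, by rw [Nat.cast_mul, h1, mul_assoc], Gd.mul ⟨by exact_mod_cast hq.ne_zero,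
        fun p hp d => (Int.natCast_dvd_natCast.1 d).trans k⟩ h2, h3,
        mul_pos (by exact_mod_cast hq.pos) h4⟩
    · refine ⟨m, q * b, by rw [Nat.cast_mul, h1, mul_left_comm], h2, fun p hp hN d => ?_, h4⟩
      rcases (Nat.prime_iff_prime_int.1 hp).dvd_or_dvd d with t | t
      · exact k ((Nat.prime_dvd_prime_iff_eq hp hq).1 (Int.natCast_dvd_natCast.1 t) ▸ hN)
      · exact h3 p hp hN t

theorem split (N : ℕ) {z s : ℤ} (hz : z ≠ 0) (hs : s ≠ 0) :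
    ∃ m b : ℤ, z = m * b ∧ Gd N m ∧ Pr N b ∧ 0 < m * s := by
  obtain ⟨m, b, h1, h2, h3, h4⟩ := split_nat N z.natAbs (Int.natAbs_ne_zero.2 hz)
  have n2 : Gd N (-m) := ⟨neg_ne_zero.2 h2.1, fun p hp d => h2.2 p hp (dvd_neg.1 d)⟩
  have n3 : Pr N (-b) := fun p hp hN d => h3 p hp hN (dvd_neg.1 d)
  rcases Int.natAbs_eq z with t | t <;> rcases lt_or_gt_of_ne hs with u | u
  · exact ⟨-m, -b, by rw [t, h1]; ring, n2, n3, mul_pos_of_neg_of_neg (neg_neg_of_pos h4) u⟩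
  · exact ⟨m, b, t.trans h1, h2, h3, mul_pos h4 u⟩
  · exact ⟨-m, b, by rw [t, h1]; ring, n2, h3, mul_pos_of_neg_of_neg (neg_neg_of_pos h4) u⟩
  · exact ⟨m, -b, by rw [t, h1]; ring, h2, n3, mul_pos h4 u⟩

theorem ex_of_mul (hp : p.Prime) {d : ℤ} (h : y * z = p ^ e * d) (hd : ¬(p : ℤ) ∣ d)
    (hz : ¬(p : ℤ) ∣ z) : ∃ c : ℤ, y = p ^ e * c ∧ ¬(p : ℤ) ∣ c ∧ c * z = d := by
  have q := Nat.prime_iff_prime_int.1 hp
  obtain ⟨c, rfl⟩ : (p : ℤ) ^ e ∣ y := q.pow_dvd_of_dvd_mul_right e hz (h ▸ dvd_mul_right _ _)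
  have k : c * z = d := mul_left_cancel₀ (pow_ne_zero e q.ne_zero) (by rw [← h, mul_assoc])
  exact ⟨c, rfl, fun t => hd (k ▸ t.mul_right z), k⟩

theorem Ex.fac (hp : p.Prime) (h : Ex p e z) : z.natAbs.factorization p = e := by
  obtain ⟨d, rfl, hd⟩ := h
  have d0 : d.natAbs ≠ 0 := fun t => hd (by rw [Int.natAbs_eq_zero.1 t]; exact dvd_zero _)
  rw [Int.natAbs_mul, Int.natAbs_pow, Int.natAbs_natCast,
    Nat.factorization_mul (pow_ne_zero _ hp.ne_zero) d0, hp.factorization_pow, Finsupp.add_apply,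
    Finsupp.single_eq_same, Nat.factorization_eq_zero_of_not_dvd fun t => hd (Int.natCast_dvd.2 t),
    add_zero]

theorem dvd_of_ex (hy : Gd N y) (hz : z ≠ 0)
    (h : ∀ p : ℕ, p.Prime → p ∣ N → ∃ a b : ℕ, Ex p a y ∧ Ex p b z ∧ a ≤ b) : y ∣ z := by
  rw [← Int.natAbs_dvd_natAbs, ← Nat.factorization_prime_le_iff_dvd (Int.natAbs_ne_zero.2 hy.1)
    (Int.natAbs_ne_zero.2 hz)]
  intro p hp
  by_cases k : p ∣ N
  · obtain ⟨a, b, h1, h2, h3⟩ := h p hp k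
    rwa [h1.fac hp, h2.fac hp]
  · rw [Nat.factorization_eq_zero_of_not_dvd fun t => k (hy.2 p hp (Int.natCast_dvd.2 t))]
    exact Nat.zero_le _

theorem sq_of_ex (hy : Gd N y) (h0 : 0 < y)
    (h : ∀ p : ℕ, p.Prime → p ∣ N → ∃ a : ℕ, Ex p (2 * a) y) : ∃ g : ℤ, y = g ^ 2 := by
  have k : y.natAbs = (∏ p ∈ y.natAbs.primeFactors, p ^ (y.natAbs.factorization p / 2)) ^ 2 := by
    rw [← prod_pow]
    refine (Nat.prod_factorization_pow_eq_self (Int.natAbs_ne_zero.2 hy.1)).symm.trans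
      (prod_congr rfl fun p hp => ?_)
    have q := Nat.prime_of_mem_primeFactors hp
    obtain ⟨a, ha⟩ := h p q (hy.2 p q (Int.natCast_dvd.2 (Nat.dvd_of_mem_primeFactors hp)))
    rw [← pow_mul, ha.fac q]
    congr 1
    omega
  exact ⟨_, by rw [← Int.natAbs_of_nonneg h0.le, k, Nat.cast_pow]⟩

theorem coprime_of {a b : ℤ} (h : ∀ p : ℕ, p.Prime → (p : ℤ) ∣ a → (p : ℤ) ∣ b → False) :
    IsCoprime a b := by
  rw [Int.isCoprime_iff_gcd_eq_one, Int.gcd]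
  exact Nat.coprime_of_dvd fun p hp a b => h p hp (Int.natCast_dvd.2 a) (Int.natCast_dvd.2 b)

end BasU

open BasU in
theorem baseU (apx : APXStmt) (pty : PTYUStmt) : BASEUStmt := by
  classical
  intro n r F hF
  obtain ⟨k0, hpos⟩ := hF.pos
  set j0 : Ix n := (0, k0) with hj0
  have n1 : ∀ k, ((1, k) : Ix n) ≠ j0 := fun k e => by simp [hj0] at e
  have n2 : ∀ k, ((2, k) : Ix n) ≠ j0 := fun k e => by simp [hj0] at e
  have : Nonempty {j // j ≠ j0} := ⟨⟨_, n1 k0⟩⟩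
  obtain ⟨P₁, hP⟩ := pty {j // j ≠ j0}
  set N : ℕ := 2 * P₁.factorial * (∏ i, (F.c i).natAbs) *
    ∏ j, ∏ k ∈ univ.erase j, (F.LZ j (F.rootZ k)).natAbs with hN
  have N0 : 0 < N := by
    refine Nat.mul_pos (Nat.mul_pos (Nat.mul_pos two_pos P₁.factorial_pos) ?_) ?_
    · exact prod_pos fun i _ => Int.natAbs_pos.2 (hF.c0 i)
    · exact prod_pos fun j _ => prod_pos fun k hk =>
        Int.natAbs_pos.2 (hF.res_ne (ne_of_mem_erase hk).symm)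
  have N2 : 2 ∣ N := ((dvd_mul_right _ _).mul_right _).mul_right _
  have NP : ∀ p : ℕ, p.Prime → p ≤ P₁ → p ∣ N := fun p hp h =>
    (((Nat.dvd_factorial hp.pos h).mul_left 2).mul_right _).mul_right _
  have gc : ∀ i, Gd N (F.c i) := fun i => gd_of_dvd N0
    (((dvd_prod_of_mem (fun i => (F.c i).natAbs) (mem_univ i)).mul_left _).mul_right _)
  have gr : ∀ j k, j ≠ k → Gd N (F.LZ j (F.rootZ k)) := fun j k h => gd_of_dvd N0
    (((dvd_prod_of_mem (fun k => (F.LZ j (F.rootZ k)).natAbs)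
      (mem_erase.2 ⟨h.symm, mem_univ k⟩)).trans (dvd_prod_of_mem
        (fun j => ∏ k ∈ univ.erase j, (F.LZ j (F.rootZ k)).natAbs) (mem_univ j))).mul_left _)
  clear_value N
  have gQ := gd_Q N0 N2
  set Q : ℕ := 128 * N with hQ
  have Q0 : 0 < Q := by positivity
  have hg0 : 0 < Int.gcd (F.A j0) (F.B j0) := by
    rw [Int.gcd_pos_iff]
    by_contra h
    push Not at h
    exact (gr _ _ (n1 k0)).1 (by simp [Surf.LZ, Surf.rootZ, h.1, h.2])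
  obtain ⟨g0, α, β, g0p, hαβ, hA, hB⟩ := Int.exists_gcd_one' hg0
  obtain ⟨x, y, hxy⟩ := Int.isCoprime_iff_gcd_eq_one.2 hαβ
  set ρ : ℤ × ℤ := (β, -α) with hρ
  have hL : ∀ j, F.LZ j (F.rootZ j0) = g0 * F.LZ j ρ := fun j => by
    simp only [Surf.LZ, Surf.rootZ, hρ, hA, hB]; ring
  have hL0 : F.LZ j0 ρ = 0 := by simp only [Surf.LZ, hρ, hA, hB]; ring
  have hL1 : F.LZ j0 (x, y) = g0 := by
    simp only [Surf.LZ, hA, hB]; linear_combination (g0 : ℤ) * hxy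
  have gm : ∀ j, j ≠ j0 → Gd N (F.LZ j ρ) := fun j h =>
    (gr j j0 h).of_dvd (hL j ▸ dvd_mul_left _ _)
  have gg0 : Gd N g0 := (gr _ j0 (n1 k0)).of_dvd (hL _ ▸ dvd_mul_right _ _)
  have g0z : (0 : ℤ) < g0 := by exact_mod_cast g0p
  have D1 : 0 < F.DZ 1 ρ := by
    have e1 : F.gam j0 = (F.DZ 1 (F.rootZ j0) : ℚ) := by simp [Surf.gam, hj0, Surf.D_root]
    have e2 : F.DZ 1 (F.rootZ j0) = g0 ^ n * F.DZ 1 ρ := by
      simp only [Surf.DZ, hL, prod_mul_distrib, prod_const, card_univ, Fintype.card_fin]; ring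
    rw [e1, e2] at hpos
    exact (mul_pos_iff_of_pos_left (pow_pos g0z n)).1 (by exact_mod_cast hpos)
  have D2 : 0 < F.DZ 2 ρ := by
    have := hF.sumZ ρ
    rw [Surf.DZ, prod_eq_zero (mem_univ k0) hL0, mul_zero] at this
    linarith
  obtain ⟨v, hv⟩ := apx n r F hF N N0
  have hv2 : ∀ p : ℕ, p.Prime → p ∣ N → ∃ (e f : ℕ) (d d' d'' : ℤ),
      (F.DZ 1 v = p ^ (2 * e) * d ∧ ¬(p : ℤ) ∣ d) ∧ (p = 2 → d % 4 = 1) ∧
      (F.DZ 0 v = p ^ (2 * e + (2 * (f + 3) + 1)) * d' ∧ ¬(p : ℤ) ∣ d') ∧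
      F.DZ 2 v = p ^ (2 * e) * d'' ∧ ¬(p : ℤ) ∣ d'' := fun p hp h => by
    obtain ⟨-, e, e', d, d', a1, a2, a3, a4, a5, a6⟩ := hv p hp h
    obtain ⟨f, rfl⟩ := Nat.exists_eq_add_of_le a6
    have a7 : F.DZ 0 v = p ^ (2 * e + (2 * (f + 3) + 1)) * d' := by rw [a4]; ring
    refine ⟨e, f, d, d', d - p * (p ^ (2 * (f + 3)) * d'), ⟨a1, a2⟩, a3, ⟨a7, a5⟩, ?_,
      fun t => a2 ((dvd_sub_left (dvd_mul_right _ _)).1 t)⟩
    have := hF.sumZ v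
    rw [a1, a7] at this
    linear_combination this
  have v0 : ∀ j, F.LZ j v ≠ 0 := by
    obtain ⟨e, f, d, d', d'', a1, -, a2, a3⟩ := hv2 2 Nat.prime_two N2
    have k : ∀ (m : ℕ) (d : ℤ), ¬((2 : ℕ) : ℤ) ∣ d → ((2 : ℕ) : ℤ) ^ m * d ≠ 0 := fun m d h =>
      mul_ne_zero (by positivity) fun t => h (t ▸ dvd_zero _)
    have k2 : ∀ i, F.DZ i v ≠ 0 := fun i => by
      fin_cases i
      exacts [a2.1 ▸ k _ _ a2.2, a1.1 ▸ k _ _ a1.2, a3.1 ▸ k _ _ a3.2]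
    exact fun j => prod_ne_zero_iff.1 (right_ne_zero_of_mul (k2 j.1)) j.2 (mem_univ _)
  have s0 : ∀ j, (if j = j0 then 1 else F.LZ j ρ) ≠ 0 := fun j => by
    split_ifs with h
    exacts [one_ne_zero, (gm j h).1]
  choose μ b hμ gμ pb sμ using fun j => split N (v0 j) (s0 j)
  have sμ' : ∀ j, j ≠ j0 → 0 < μ j * F.LZ j ρ := fun j h => by simpa only [if_neg h] using sμ j
  have sμ0 : 0 < μ j0 := by simpa using sμ j0
  have gM : ∀ i, Gd N (F.c i * ∏ k, μ (i, k)) := fun i => (gc i).mul (Gd.prod _ fun k _ => gμ _)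
  have hM : ∀ i, (F.c i * ∏ k, μ (i, k)) * ∏ k, b (i, k) = F.DZ i v := fun i => by
    simp only [Surf.DZ, hμ, prod_mul_distrib, mul_assoc]
  have pB : ∀ i, Pr N (∏ k, b (i, k)) := fun i => Pr.prod _ fun k _ => pb _
  have Mp : ∀ i, (∀ k, (i, k) ≠ j0) → 0 < F.DZ i ρ → 0 < F.c i * ∏ k, μ (i, k) := fun i h h' => by
    refine (mul_pos_iff_of_pos_right h').1 ?_
    rw [Surf.DZ, mul_mul_mul_comm, ← prod_mul_distrib]
    exact mul_pos (mul_self_pos.2 (hF.c0 i)) (prod_pos fun k _ => sμ' _ (h k))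
  have hx : ∀ p : ℕ, p.Prime → p ∣ N → ∃ e f : ℕ, Ex p (2 * e) (F.c 1 * ∏ k, μ (1, k)) ∧
      Ex p (2 * e) (F.c 2 * ∏ k, μ (2, k)) ∧
      Ex p (2 * e + (2 * (f + 3) + 1)) (F.c 0 * ∏ k, μ (0, k)) := fun p hp h => by
    obtain ⟨e, f, d, d', d'', a1, -, a2, a3⟩ := hv2 p hp h
    obtain ⟨c1, u1, u2, -⟩ := ex_of_mul hp ((hM 1).trans a1.1) a1.2 (pB 1 p hp h)
    obtain ⟨c2, u3, u4, -⟩ := ex_of_mul hp ((hM 2).trans a3.1) a3.2 (pB 2 p hp h)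
    obtain ⟨c0, u5, u6, -⟩ := ex_of_mul hp ((hM 0).trans a2.1) a2.2 (pB 0 p hp h)
    exact ⟨e, f, ⟨c1, u1, u2⟩, ⟨c2, u3, u4⟩, c0, u5, u6⟩
  obtain ⟨g, hg⟩ := sq_of_ex (gM 1) (Mp 1 n1 D1) fun p hp h =>
    let ⟨e, _, a, _⟩ := hx p hp h; ⟨e, a⟩
  have hg2 : F.c 2 * ∏ k, μ (2, k) = g ^ 2 := by
    rw [← hg]
    exact Int.dvd_antisymm (Mp 2 n2 D2).le (Mp 1 n1 D1).le
      (dvd_of_ex (gM 2) (gM 1).1 fun p hp h =>
        let ⟨_, _, a, c, _⟩ := hx p hp h; ⟨_, _, c, a, le_rfl⟩)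
      (dvd_of_ex (gM 1) (gM 2).1 fun p hp h =>
        let ⟨_, _, a, c, _⟩ := hx p hp h; ⟨_, _, a, c, le_rfl⟩)
  obtain ⟨δ, hδ⟩ : g ^ 2 ∣ F.c 0 * ∏ k, μ (0, k) := hg ▸ dvd_of_ex (gM 1) (gM 0).1 fun p hp h =>
    let ⟨_, _, a, _, c⟩ := hx p hp h; ⟨_, _, a, c, Nat.le_add_right _ _⟩
  have gδ : Gd N δ := (gM 0).of_dvd (hδ ▸ dvd_mul_left _ _)
  have xδ : ∀ p : ℕ, p.Prime → p ∣ N → ∃ f : ℕ, Ex p (2 * (f + 3) + 1) δ := fun p hp h => by
    obtain ⟨e, f, ⟨c1, u1, u2⟩, -, c0, u5, u6⟩ := hx p hp h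
    have : δ * c1 = p ^ (2 * (f + 3) + 1) * c0 :=
      mul_left_cancel₀ (pow_ne_zero (2 * e) (Nat.cast_ne_zero.2 hp.ne_zero)) (by
        rw [← mul_assoc, ← mul_assoc, ← pow_add, ← u5, hδ, ← hg, u1]; ring)
    obtain ⟨c, w1, w2, -⟩ := ex_of_mul hp this u6 u2
    exact ⟨f, c, w1, w2⟩
  have B4 : (∏ k, b (1, k)) % 4 = 1 := by
    obtain ⟨e, f, d, d', d'', a1, a4, -⟩ := hv2 2 Nat.prime_two N2
    obtain ⟨c, u1, u2, u3⟩ := ex_of_mul Nat.prime_two ((hM 1).trans a1.1) a1.2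
      (pB 1 2 Nat.prime_two N2)
    rw [hg, mul_comm 2 e, pow_mul] at u1
    obtain ⟨h, rfl⟩ : ((2 : ℕ) : ℤ) ^ e ∣ g :=
      (Int.pow_dvd_pow_iff two_ne_zero).1 (u1 ▸ dvd_mul_right _ _)
    rw [mul_pow] at u1
    obtain rfl := mul_left_cancel₀ (by positivity) u1
    have o : h ^ 2 % 4 = 1 := by
      obtain ⟨m, rfl⟩ := Int.not_even_iff_odd.1 fun t =>
        u2 ((even_iff_two_dvd.1 t).trans (dvd_pow_self h two_ne_zero))
      rw [show (2 * m + 1) ^ 2 = 1 + 4 * (m ^ 2 + m) by ring, Int.add_mul_emod_self_left]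
      rfl
    have := a4 rfl
    rwa [← u3, Int.mul_emod, o, one_mul, Int.emod_emod] at this
  obtain ⟨κ, hκ⟩ : ∃ κ : Ix n → ℤ, ∀ j, κ j = Q * (∏ k ∈ univ.erase j, μ k) ^ 2 * μ j :=
    ⟨_, fun _ => rfl⟩
  obtain ⟨R, hR⟩ : ∃ R : ℤ, R = Q * (∏ k, μ k) ^ 2 := ⟨_, rfl⟩
  have κR : ∀ j, μ j * κ j = R := fun j => by
    rw [hκ, hR, ← mul_prod_erase univ μ (mem_univ j)]; ring
  have gκ : ∀ j, Gd N (κ j) := fun j => by
    have := Gd.prod (univ.erase j) fun k _ => gμ k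
    rw [hκ, sq]
    exact (gQ.mul (this.mul this)).mul (gμ j)
  have Qκ : ∀ j, (Q : ℤ) ∣ κ j := fun j => hκ j ▸ (dvd_mul_right _ _).mul_right _
  have κp : ∀ (j) (s : ℤ), 0 < μ j * s → 0 < κ j * s := fun j s h => by
    rw [hκ, mul_assoc]
    exact mul_pos (mul_pos (by exact_mod_cast Q0)
      (sq_pos_of_ne_zero (prod_ne_zero_iff.2 fun k _ => (gμ k).1))) h
  have QN : ∀ p : ℕ, p.Prime → p ∣ Q → p ∣ N := fun p hp h =>
    gQ.2 p hp (Int.natCast_dvd_natCast.2 h)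
  have tn : ∀ (j) (s : ℤ), Gd N s → 0 < μ j * s → 0 < (κ j * s).toNat ∧ Q ∣ (κ j * s).toNat ∧
      (∀ p : ℕ, p.Prime → p ∣ (κ j * s).toNat → p ∣ Q) ∧ ((κ j * s).toNat : ℤ) = κ j * s :=
    fun j s hs h => by
      have e := Int.toNat_of_nonneg (κp j s h).le
      exact ⟨Int.natCast_pos.1 (by rw [e]; exact κp j s h),
        Int.natCast_dvd_natCast.1 (by rw [e]; exact (Qκ j).mul_right _), fun p hp d =>
          (((gκ j).mul hs).2 p hp ((Int.natCast_dvd_natCast.2 d).trans e.dvd)).mul_left _, e⟩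
  refine ⟨N, b, fun ε => ?_⟩
  have t0 := tn j0 g0 gg0 (mul_pos sμ0 g0z)
  have t1 := fun j : {j // j ≠ j0} => tn j.1 _ (gm _ j.2) (sμ' _ j.2)
  obtain ⟨X, Y, t, a, ht, ha, sqt, sqa, par⟩ := hP Q (fun j => (κ j.1 * F.LZ j.1 ρ).toNat)
    (fun j => κ j.1 * F.LZ j.1 (x, y)) (fun j => b j.1) (κ j0 * g0).toNat (b j0) ε Q0
    (fun p hp h => (NP p hp h).mul_left 128)
    (fun j => ⟨(t1 j).1, (t1 j).2.1, (t1 j).2.2.1, (Qκ _).mul_right _,
      fun p hp h => pb _ p hp (QN p hp h)⟩) t0.1 t0.2.1 t0.2.2.1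
    fun p hp h => pb _ p hp (QN p hp h)
  obtain ⟨A, hA0, hA1⟩ : ∃ A : Ix n → ℕ, A j0 = t ∧ ∀ j : {j // j ≠ j0}, A j.1 = a j :=
    ⟨fun j => if h : j = j0 then t else a ⟨j, h⟩, dif_pos rfl, fun j => dif_neg j.2⟩
  have eA : ∀ j, (A j : ℤ) = b j + κ j * (F.LZ j ρ * X + F.LZ j (x, y) * Y) := fun j => by
    by_cases h : j = j0
    · rw [h, hA0, ht, t0.2.2.2, hL0, hL1]; ring
    · rw [hA1 ⟨j, h⟩, ha, (t1 _).2.2.2]; ring
  have sqA : ∀ j, Squarefree (A j) := fun j => by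
    by_cases h : j = j0
    · rwa [h, hA0]
    · rw [hA1 ⟨j, h⟩]; exact (sqa _).1
  have c0 : ∀ j, j ≠ j0 → (A j).Coprime (A j0) := fun j h => by
    rw [hA0, hA1 ⟨j, h⟩]; exact (sqa _).2
  have QA : ∀ j, (Q : ℤ) ∣ A j - b j := fun j => by
    rw [eA, add_sub_cancel_left]; exact (Qκ j).mul_right _
  have pA : ∀ j, Pr N (A j) := fun j p hp h d => pb j p hp h
    ((dvd_sub_right d).1 ((Int.natCast_dvd_natCast.2 (h.mul_left 128)).trans (QA j)))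
  obtain ⟨u, hu⟩ : ∃ u : ℤ × ℤ,
      u = (v.1 + R * (X * β + Y * x), v.2 + R * (-(X * α) + Y * y)) := ⟨_, rfl⟩
  have l0 : ∀ j, F.LZ j u = μ j * A j := fun j => by
    have := hμ j
    rw [eA, mul_add, ← mul_assoc, κR, ← this, hu]
    simp only [Surf.LZ, hρ]
    ring
  have a0 : ∀ j, μ j * A j ≠ 0 := fun j =>
    mul_ne_zero (gμ j).1 (Nat.cast_ne_zero.2 (sqA j).ne_zero)
  have dA : ∀ (j) (p : ℕ), p.Prime → ¬p ∣ N → (p : ℤ) ∣ μ j * A j → p ∣ A j := fun j p hp h d =>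
    ((Nat.prime_iff_prime_int.1 hp).dvd_or_dvd d).elim (fun t => absurd ((gμ j).2 p hp t) h)
      Int.natCast_dvd_natCast.1
  have l1 : ∀ j, F.LZ j ((∏ k, μ k * A k) * β, -((∏ k, μ k * A k) * α)) =
      μ j * A j * ((∏ k ∈ univ.erase j, μ k * A k) * F.LZ j ρ) := fun j => by
    rw [← mul_assoc, mul_prod_erase univ (fun k => μ k * A k) (mem_univ j)]
    simp only [Surf.LZ, hρ]
    ring
  refine ⟨⟨N, g, δ, u, ((∏ k, μ k * A k) * β, -((∏ k, μ k * A k) * α)), μ,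
    fun j => (∏ k ∈ univ.erase j, μ k * A k) * F.LZ j ρ, A⟩,
    ⟨N0, N2, l0, l1, coprime_of fun p hp d1 d2 => ?_, fun j k hjk e => ?_, fun j => (gμ j).1, gδ.1,
      fun i => (gc i).2, fun j k h => (gr j k h).2, fun j => (gμ j).2, gδ.2, hδ, hg, hg2, sqA,
      fun j k hjk => ?_, fun j => Nat.coprime_of_dvd fun p hp d h =>
        pA j p hp h (Int.natCast_dvd_natCast.2 d),
      fun p hp h => let ⟨f, c⟩ := xδ p hp h; ⟨f + 3, c⟩, ?_, ?_⟩, rfl, QA, ?_⟩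
  · by_cases h : p ∣ N
    · have pR : (p : ℤ) ∣ R := hR ▸ (Int.natCast_dvd_natCast.2 (h.mul_left 128)).mul_right _
      rw [hu] at d1 d2
      exact (hv p hp h).1 ⟨(dvd_add_left (pR.mul_right _)).1 d1,
        (dvd_add_left (pR.mul_right _)).1 d2⟩
    · have k : ∀ j, p ∣ A j := fun j => dA j p hp h
        (l0 j ▸ dvd_add (d1.mul_left _) (d2.mul_left _))
      exact hp.ne_one (Nat.eq_one_of_dvd_coprimes (c0 _ (n1 k0)) (k _) (k _))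
  · have cr := F.cramer j0 j k u
    have e' : (∏ i ∈ univ.erase j, μ i * A i) * F.LZ j ρ =
      (∏ i ∈ univ.erase k, μ i * A i) * F.LZ k ρ := e
    have p1 := mul_prod_erase univ (fun k => μ k * A k) (mem_univ j)
    have p2 := mul_prod_erase univ (fun k => μ k * A k) (mem_univ k)
    rw [hL, hL, l0, l0, l0] at cr
    refine mul_ne_zero (prod_ne_zero_iff.2 fun i (_ : i ∈ univ) => a0 i)
      (mul_ne_zero (a0 j0) (gr k j hjk.symm).1) ?_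
    rw [← cr]
    linear_combination (-g0 * (μ j * A j) * (μ k * A k) : ℤ) * e' -
      (g0 * (μ j * A j) * F.LZ k ρ : ℤ) * p2 + (g0 * (μ k * A k) * F.LZ j ρ : ℤ) * p1
  · by_cases h : j = j0
    · exact h ▸ (c0 k fun e => hjk (h.trans e.symm)).symm
    · refine Nat.coprime_of_dvd fun p hp d1 d2 => ?_
      have pN : ¬p ∣ N := fun t => pA j p hp t (Int.natCast_dvd_natCast.2 d1)
      have cr := F.cramer j0 j k u
      rw [l0, l0, l0] at cr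
      have d : (p : ℤ) ∣ μ j0 * A j0 * F.LZ k (F.rootZ j) := cr ▸ dvd_sub
        (((Int.natCast_dvd_natCast.2 d1).mul_left _).mul_right _)
        (((Int.natCast_dvd_natCast.2 d2).mul_left _).mul_right _)
      rcases (Nat.prime_iff_prime_int.1 hp).dvd_or_dvd d with t | t
      · exact hp.ne_one (Nat.eq_one_of_dvd_coprimes (c0 j h) d1 (dA j0 p hp pN t))
      · exact pN ((gr k j hjk.symm).2 p hp t)
  · have k : (∏ k, b (1, k)) ≡ ∏ k, (A (1, k) : ℤ) [ZMOD 4] := Int.ModEq.prod fun k _ =>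
      Int.modEq_iff_dvd.2 (Dvd.dvd.trans ⟨32 * N, by rw [hQ]; push_cast; ring⟩ (QA (1, k)))
    have k' : ((∏ k, A (1, k) : ℕ) : ℤ) % 4 = 1 := by rw [Nat.cast_prod, ← B4]; exact k.symm
    show (∏ k, A (1, k)) % 4 = 1
    omega
  · obtain ⟨f, c, w, -⟩ := xδ 2 Nat.prime_two N2
    exact ⟨2 ^ (2 * f) * c, by rw [w]; push_cast; ring⟩
  · show (∑ j, (A j).primeFactors.card) % 2 = ε % 2
    rw [Fintype.sum_eq_add_sum_subtype_ne _ j0, hA0, sum_congr rfl fun i _ => by rw [hA1 i]]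
    exact par

end Pool.Agent.MP_a43263_nt.RG
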