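import Pool.Agent.MP_a43263_nt.RU.Spec
import Pool.Agent.MP_a43263_nt.RG.Br

/-! PROJECT RANKG, second version: the point of an admissible tuple, the hypotheses of the
descent, and the choice of the parity. -/

set_option autoImplicit false

noncomputable section

namespace Pool.Agent.MP_a43263_nt.RG

open Finset
open R2 (Sgn chi Ker sg)

namespace BrU

open Br (nontriv dvdM NM cop_of_one not_dvd_of_cop prod_modEq jac_one jac_prod jac_sqf jac_congr
  cZ_eq DZ_eq)

variable {n : ℕ} {F : Surf n} {B : Base n} {M : ℕ}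

theorem l_one (h : 2 ≤ n) (hM : B.Fits M) {l : Ix n → ℕ} (hl : Adm (B.datU F M) l) (j : Ix n) :
    l j ≡ 1 [MOD 128 * B.N] :=
  (hl.one j).of_dvd ((dvdM h hM).trans (dvd_mul_left _ _))

/-- the numbers `a j * l j` are pairwise coprime -/
theorem cop_al (hB : B.OkU F) (hM : B.Fits M) {l : Ix n → ℕ} (hl : Adm (B.datU F M) l) {j k : Ix n}
    (hjk : j ≠ k) : (B.a j * l j).Coprime (B.a k * l k) := by
  have h1 : ∀ j k, (B.a j).Coprime (l k) := fun j k =>
    ((hl.coprime_M k).coprime_dvd_right (hM.aM j)).symm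
  exact Nat.Coprime.mul_left ((hB.cop j k hjk).mul_right (h1 j k))
    ((h1 k j).symm.mul_right (hl.cop j k hjk))

theorem al_cop (h : 2 ≤ n) (hB : B.OkU F) (hM : B.Fits M) {l : Ix n → ℕ}
    (hl : Adm (B.datU F M) l) (j : Ix n) : (B.a j * l j).Coprime B.N :=
  Nat.Coprime.mul_left (hB.aN j) (cop_of_one (l_one h hM hl j))

theorem mem_V0 {x : Gen n} : x ∈ (B.datU F M).V0 ↔ x = neg ∨
    (∃ p ∈ B.N.primeFactors, x = ((0, none), p)) ∨
      ∃ j : Ix n, ∃ p ∈ (B.a j).primeFactors, x = ((j.1, none), p) := by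
  simp only [Base.datU, Base.dat, mem_union, mem_insert, mem_image, mem_biUnion, mem_univ, true_and, or_assoc,
    eq_comm]

theorem prod_V0 (hB : B.OkU F) {R : Type} [CommMonoid R] (φ : Gen n → R) :
    ∏ x ∈ (B.datU F M).V0, φ x = φ neg * (∏ p ∈ B.N.primeFactors, φ ((0, none), p)) *
      ∏ j : Ix n, ∏ p ∈ (B.a j).primeFactors, φ ((j.1, none), p) := by
  have e : (B.datU F M).V0 = insert neg (B.N.primeFactors.image fun p => ((0, none), p)) ∪
      univ.biUnion fun j : Ix n => (B.a j).primeFactors.image fun p => ((j.1, none), p) := rfl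
  rw [e, prod_union, prod_insert, prod_biUnion, prod_image fun _ _ _ _ e => (Prod.mk.inj e).2]
  · congr 1
    exact prod_congr rfl fun j _ => prod_image fun _ _ _ _ e => (Prod.mk.inj e).2
  · intro j _ k _ hjk
    simp only [Function.onFun, disjoint_left, mem_image]
    rintro _ ⟨p, hp, rfl⟩ ⟨q, hq, e⟩
    obtain rfl : q = p := (Prod.mk.inj e).2
    exact not_dvd_of_cop (Nat.prime_of_mem_primeFactors hp) (hB.cop j k hjk)
      (Nat.dvd_of_mem_primeFactors hp) (Nat.dvd_of_mem_primeFactors hq)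
  · simp only [mem_image, not_exists, not_and]
    intro p hp e
    exact (Nat.prime_of_mem_primeFactors hp).ne_one (Prod.mk.inj e).2
  · simp only [disjoint_left, mem_insert, mem_image, mem_biUnion, mem_univ, true_and, not_exists,
      not_and]
    rintro _ (rfl | ⟨p, hp, rfl⟩) j q hq e
    · exact (Nat.prime_of_mem_primeFactors hq).ne_one (Prod.mk.inj e).2
    · obtain rfl : q = p := (Prod.mk.inj e).2
      exact not_dvd_of_cop (Nat.prime_of_mem_primeFactors hp) (hB.aN j)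
        (Nat.dvd_of_mem_primeFactors hq) (Nat.dvd_of_mem_primeFactors hp)

theorem nice_V0 (hB : B.OkU F) : Nice (B.datU F M).V0 := by
  refine ⟨mem_V0.2 (.inl rfl), fun a ha => ?_, fun a ha b hb e => ?_, fun a ha h0 => ?_⟩
  · rcases mem_V0.1 ha with rfl | ⟨p, hp, rfl⟩ | ⟨j, p, hp, rfl⟩
    · exact .inl rfl
    · exact .inr (Nat.prime_of_mem_primeFactors hp)
    · exact .inr (Nat.prime_of_mem_primeFactors hp)
  · rcases mem_V0.1 ha with rfl | ⟨p, hp, rfl⟩ | ⟨j, p, hp, rfl⟩ <;>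
      rcases mem_V0.1 hb with rfl | ⟨q, hq, rfl⟩ | ⟨k, q, hq, rfl⟩
    · rfl
    · exact absurd e.symm (Nat.prime_of_mem_primeFactors hq).ne_one
    · exact absurd e.symm (Nat.prime_of_mem_primeFactors hq).ne_one
    · exact absurd e (Nat.prime_of_mem_primeFactors hp).ne_one
    · obtain rfl : p = q := e
      rfl
    · obtain rfl : p = q := e
      exact absurd (Nat.dvd_of_mem_primeFactors hp) (not_dvd_of_cop
        (Nat.prime_of_mem_primeFactors hp) (hB.aN k) (Nat.dvd_of_mem_primeFactors hq))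
    · exact absurd e (Nat.prime_of_mem_primeFactors hp).ne_one
    · obtain rfl : p = q := e
      exact absurd (Nat.dvd_of_mem_primeFactors hq) (not_dvd_of_cop
        (Nat.prime_of_mem_primeFactors hp) (hB.aN j) (Nat.dvd_of_mem_primeFactors hp))
    · obtain rfl : p = q := e
      by_cases hjk : j = k
      · rw [hjk]
      · exact absurd (Nat.dvd_of_mem_primeFactors hq) (not_dvd_of_cop
          (Nat.prime_of_mem_primeFactors hp) (hB.cop j k hjk) (Nat.dvd_of_mem_primeFactors hp))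
  · rcases mem_V0.1 ha with rfl | ⟨p, hp, rfl⟩ | ⟨j, p, hp, rfl⟩
    · exact absurd rfl h0
    · exact absurd rfl h0
    · rintro (rfl : p = 2)
      exact not_dvd_of_cop Nat.prime_two (hB.aN j) (Nat.dvd_of_mem_primeFactors hp)
        hB.two

theorem cZ_ne {r : ℕ} (hF : F.HypU r) (j : Ix n) : F.cZ j ≠ 0 := by
  obtain ⟨i, hi, -, s, hs, e, -⟩ := cZ_eq (F := F) (B := ⟨0, 0, 0, 0, 0, 0, 0, 0⟩) j
  rw [e]
  refine mul_ne_zero (by rcases hs with rfl | rfl <;> norm_num) (mul_ne_zero (hF.c0 i) ?_)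
  exact prod_ne_zero_iff.2 fun k _ => hF.res_ne fun e => hi (congrArg Prod.fst e)

theorem cZ_N (hB : B.OkU F) (j : Ix n) (p : ℕ) (hp : p.Prime) (hd : (p : ℤ) ∣ F.cZ j) :
    p ∣ B.N := by
  have hp' : Prime (p : ℤ) := Nat.prime_iff_prime_int.1 hp
  obtain ⟨i, hi, -, s, hs, e, -⟩ := cZ_eq (F := F) (B := B) j
  have h1 : (p : ℤ) ∣ F.DZ i (F.rootZ j) := by
    rw [e] at hd
    rcases hs with rfl | rfl
    · simpa using hd
    · simpa using hd
  rcases hp'.dvd_or_dvd h1 with h | h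
  · exact hB.cN i p hp h
  · obtain ⟨k, -, hk⟩ := (hp'.dvd_finsetProd_iff _).1 h
    exact hB.rN _ _ (fun e => hi (congrArg Prod.fst e)) p hp hk

theorem dg_tg (h : Ix n) (p : ℕ) : (B.datU F M).dg (tg h, p) = jacobiSym (F.cZ h) p := by
  simp only [Base.datU, Base.dat, tg, Option.elim]
  exact if_neg fun k => Option.some_ne_none _ k.1

theorem ok {r : ℕ} (hF : F.HypU r) (hB : B.OkU F) (hM : B.Fits M) : (B.datU F M).Ok := by
  refine ⟨hF.two, hM.pos, hM.sm, hB.ne, fun h k hk => (dvd_mul_left _ _).trans (hM.dv h k hk),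
    cZ_ne hF, fun h p hp hd => (cZ_N hB h p hp hd).trans (NM hF.two hM), nice_V0 hB,
    fun a ha => ?_, dg_tg⟩
  rcases mem_V0.1 ha with rfl | ⟨p, hp, rfl⟩ | ⟨j, p, hp, rfl⟩
  · exact ⟨rfl, one_dvd _⟩
  · exact ⟨rfl, (Nat.dvd_of_mem_primeFactors hp).trans (NM hF.two hM)⟩
  · exact ⟨rfl, (Nat.dvd_of_mem_primeFactors hp).trans (hM.aM j)⟩

theorem prod_VV (hB : B.OkU F) (hD : (B.datU F M).Ok) (l : Ix n → ℕ) {R : Type} [CommMonoid R]
    (φ : Gen n → R) : ∏ x ∈ (B.datU F M).VV l, φ x =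
      φ neg * (∏ p ∈ B.N.primeFactors, φ ((0, none), p)) *
        (∏ j : Ix n, ∏ p ∈ (B.a j).primeFactors, φ ((j.1, none), p)) *
          ∏ j : Ix n, ∏ p ∈ (l j).primeFactors, φ (tg j, p) := by
  rw [Dat.VV, prod_union (hD.disjoint l), prod_V0 hB, prod_gens]

/-- products over the generators of one class that do not divide `N` -/
theorem prod_cls (hB : B.OkU F) (hD : (B.datU F M).Ok) {l : Ix n → ℕ}
    (hl : ∀ j, (l j).Coprime B.N) (i : Fin 3) {R : Type} [CommMonoid R] (φ : Gen n → R) :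
    ∏ x ∈ ((B.datU F M).VV l).filter (fun x => x.1.1 = i ∧ x ≠ neg ∧ ¬x.2 ∣ B.N), φ x =
      ∏ k, (∏ p ∈ (B.a (i, k)).primeFactors, φ ((i, none), p)) *
        ∏ p ∈ (l (i, k)).primeFactors, φ (tg (i, k), p) := by
  have h1 : ∀ (c : Ix n → ℕ) (t : Ix n → Tag n), (∀ j, (c j).Coprime B.N) → (∀ j, (t j).1 = j.1) →
      ∏ j : Ix n, ∏ p ∈ (c j).primeFactors,
        (if (t j, p).1.1 = i ∧ (t j, p) ≠ neg ∧ ¬(t j, p).2 ∣ B.N then φ (t j, p) else 1) =
      ∏ k, ∏ p ∈ (c (i, k)).primeFactors, φ (t (i, k), p) := by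
    intro c t hc ht
    rw [Fintype.prod_prod_type, prod_eq_single i]
    · refine prod_congr rfl fun k _ => prod_congr rfl fun p hp => if_pos ⟨ht _, fun e => ?_, ?_⟩
      · exact (Nat.prime_of_mem_primeFactors hp).ne_one (Prod.mk.inj e).2
      · exact not_dvd_of_cop (Nat.prime_of_mem_primeFactors hp) (hc _)
          (Nat.dvd_of_mem_primeFactors hp)
    · intro i' _ hi
      exact prod_eq_one fun k _ => prod_eq_one fun p _ => if_neg fun h => hi ((ht _).symm.trans h.1)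
    · exact fun h => absurd (mem_univ i) h
  rw [prod_filter, prod_VV hB hD, if_neg (fun h => h.2.1 rfl),
    prod_eq_one fun p hp => if_neg fun h => h.2.2 (Nat.dvd_of_mem_primeFactors hp),
    h1 B.a (fun j => (j.1, none)) (fun j => hB.aN j) fun _ => rfl,
    h1 l tg hl fun _ => rfl, one_mul, one_mul, prod_mul_distrib]

theorem filter_cls (hB : B.OkU F) {l : Ix n → ℕ} (hl : ∀ j, (l j).Coprime B.N) {i : Fin 3}
    (hi : i ≠ 0) : ((B.datU F M).VV l).filter (fun x => x.1.1 = i) =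
      ((B.datU F M).VV l).filter (fun x => x.1.1 = i ∧ x ≠ neg ∧ ¬x.2 ∣ B.N) := by
  refine filter_congr fun x hx => ⟨fun h => ⟨h, ?_, ?_⟩, fun h => h.1⟩
  · rintro rfl
    exact hi h.symm
  · rcases mem_VV.1 hx with hx | hx
    · rcases mem_V0.1 hx with rfl | ⟨p, hp, rfl⟩ | ⟨j, p, hp, rfl⟩
      · exact absurd h.symm hi
      · exact absurd h.symm hi
      · exact not_dvd_of_cop (Nat.prime_of_mem_primeFactors hp) (hB.aN j)
          (Nat.dvd_of_mem_primeFactors hp)
    · obtain ⟨j, -, hp⟩ := mem_gens.1 hx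
      exact not_dvd_of_cop (Nat.prime_of_mem_primeFactors hp) (hl j)
        (Nat.dvd_of_mem_primeFactors hp)

theorem prod_pr (hB : B.OkU F) (hD : (B.datU F M).Ok) {l : Ix n → ℕ}
    (hl : ∀ j, (l j).Coprime B.N) (hs : ∀ j, Squarefree (l j)) (i : Fin 3) :
    ∏ x ∈ ((B.datU F M).VV l).filter (fun x => x.1.1 = i ∧ x ≠ neg ∧ ¬x.2 ∣ B.N), x.2 =
      B.pr l i := by
  rw [prod_cls hB hD hl i fun x => x.2]
  exact prod_congr rfl fun k _ => by
    rw [Nat.prod_primeFactors_of_squarefree (hB.sqf _), Nat.prod_primeFactors_of_squarefree (hs _)]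

theorem dg_a (hB : B.OkU F) {j : Ix n} {p : ℕ} (hp : p ∈ (B.a j).primeFactors) (i : Fin 3) :
    (B.datU F M).dg ((i, none), p) = jacobiSym (F.cZ j) p := by
  have e : univ.filter (fun k => p ∣ B.a k) = {j} := by
    ext k
    simp only [mem_filter, mem_univ, true_and, mem_singleton]
    refine ⟨fun h => ?_, fun h => h ▸ Nat.dvd_of_mem_primeFactors hp⟩
    by_contra hk
    exact not_dvd_of_cop (Nat.prime_of_mem_primeFactors hp) (hB.cop k j hk) h
      (Nat.dvd_of_mem_primeFactors hp)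
  have hN : ¬p ∣ B.N := not_dvd_of_cop (Nat.prime_of_mem_primeFactors hp) (hB.aN j)
    (Nat.dvd_of_mem_primeFactors hp)
  change (if _ then _ else ∏ k ∈ univ.filter (fun k => p ∣ B.a k), jacobiSym (F.cZ k) p) = _
  rw [if_neg fun h => hN h.2, e, prod_singleton]

theorem dg_N {p : ℕ} (hp : p ∣ B.N) :
    (B.datU F M).dg ((0, none), p) = jacobiSym p (∏ k, B.a (1, k)) := if_pos ⟨rfl, hp⟩

/-- the diagonal symbol at a prime of `a j * l j` -/
theorem diag {r : ℕ} (hF : F.HypU r) (hB : B.OkU F) (hM : B.Fits M) {l : Ix n → ℕ}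
    (hl : Adm (B.datU F M) l) {v : ℤ × ℤ} (hv : ∀ j, F.LZ j v = B.μ j * B.a j * l j) (j : Ix n)
    {p : ℕ} (hp : p.Prime) (hd : p ∣ B.a j * l j) :
    jacobiSym (F.cZ j) p = jacobiSym (![(B.pr l 1 : ℤ), B.pr l 2, -B.pr l 1] j.1) p := by
  have hp' : Prime (p : ℤ) := Nat.prime_iff_prime_int.1 hp
  have hN : ¬p ∣ B.N := not_dvd_of_cop hp (al_cop hF.two hB hM hl j) hd
  have := nontriv hF.two
  obtain ⟨k0, hk0⟩ := exists_ne j
  obtain ⟨i, -, hi0, s, -, e1, e2⟩ := cZ_eq (F := F) (B := B) j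
  obtain ⟨m, hm⟩ := hF.ev
  have hg : F.c i * ∏ k, B.μ (i, k) = B.g ^ 2 := by
    have h3 : ∀ i : Fin 3, i = 0 ∨ i = 1 ∨ i = 2 := by decide
    rcases h3 i with rfl | rfl | rfl
    · exact absurd rfl hi0
    · exact hB.p1
    · exact hB.p2
  have hgp : ¬(p : ℤ) ∣ B.g := fun h => by
    have h1 : (p : ℤ) ∣ F.c i * ∏ k, B.μ (i, k) := hg ▸ h.trans (dvd_pow_self _ two_ne_zero)
    rcases hp'.dvd_or_dvd h1 with h | h
    · exact hN (hB.cN i p hp h)
    · obtain ⟨k, -, hk⟩ := (hp'.dvd_finsetProd_iff _).1 h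
      exact hN (hB.mN _ p hp hk)
  have hr : ¬(p : ℤ) ∣ F.LZ k0 (F.rootZ j) := fun h => hN (hB.rN _ _ hk0 p hp h)
  have ht : ¬(p : ℤ) ∣ F.LZ k0 v := fun h => by
    rw [hv, mul_assoc] at h
    rcases hp'.dvd_or_dvd h with h | h
    · exact hN (hB.mN _ p hp h)
    · exact not_dvd_of_cop hp (cop_al hB hM hl hk0.symm) hd (by exact_mod_cast h)
  have hj : (p : ℤ) ∣ F.LZ j v := by
    rw [hv, mul_assoc]
    exact Dvd.dvd.mul_left (by exact_mod_cast hd) _
  have hk : ∀ k : Ix n, F.LZ k0 v * F.LZ k (F.rootZ j) ≡ F.LZ k v * F.LZ k0 (F.rootZ j) [ZMOD p] :=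
    fun k => (Int.modEq_iff_dvd.2 (by rw [F.cramer]; exact hj.mul_right _))
  have hP : ∏ k, F.LZ k0 v * F.LZ (i, k) (F.rootZ j) ≡
      ∏ k, F.LZ (i, k) v * F.LZ k0 (F.rootZ j) [ZMOD p] := prod_modEq _ fun k _ => hk (i, k)
  rw [prod_mul_distrib, prod_mul_distrib, prod_const, prod_const, card_univ, Fintype.card_fin]
    at hP
  rw [e1, e2]
  refine jac_congr hp (s := F.LZ k0 v ^ m) (t := B.g * F.LZ k0 (F.rootZ j) ^ m)
    (fun h => ht (hp'.dvd_of_dvd_pow h)) (fun h => (hp'.dvd_or_dvd h).elim hgp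
      fun h => hr (hp'.dvd_of_dvd_pow h)) ?_
  have h5 := DZ_eq hv i
  rw [hg, Surf.DZ] at h5
  have h6 := hP.mul_left (s * F.c i)
  have h7 : ∀ x : ℤ, x ^ n = (x ^ m) ^ 2 := fun x => by rw [sq, ← pow_add, ← hm]
  rw [h7, h7] at h6
  convert h6 using 1
  · rw [Surf.DZ]; ring
  · linear_combination (-s * (F.LZ k0 (F.rootZ j) ^ m) ^ 2) * h5

/-- symbols only depend on the class of the lower argument -/
theorem jac_per {N m m' : ℕ} (h2 : 2 ∣ N) (hm : m ≡ m' [MOD 128 * N]) (hc : m.Coprime N) {C : ℤ}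
    (hC : C ≠ 0) (hp : ∀ p : ℕ, p.Prime → (p : ℤ) ∣ C → p ∣ N) :
    jacobiSym C m = jacobiSym C m' := by
  have hodd : Odd m := Nat.coprime_two_right.1 (hc.coprime_dvd_right h2)
  have hodd' : Odd m' := by
    have := (hm.of_dvd (show 2 ∣ 128 * N from Dvd.dvd.mul_right (by norm_num) _))
    rw [Nat.odd_iff] at hodd ⊢
    exact Eq.trans this.symm hodd
  have key : ∀ a : ℤ, 4 * a.natAbs ∣ 128 * N → jacobiSym a m = jacobiSym a m' := by
    intro a ha
    have h2 : m % (4 * a.natAbs) = m' % (4 * a.natAbs) := hm.of_dvd ha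
    rw [jacobiSym.mod_right a hodd, h2, ← jacobiSym.mod_right a hodd']
  have nat : ∀ c : ℕ, c ≠ 0 → (∀ p : ℕ, p.Prime → p ∣ c → p ∣ N) →
      jacobiSym c m = jacobiSym c m' := by
    intro c
    induction c using induction_on_primes with
    | zero => exact fun h => absurd rfl h
    | one => intro _ _; simp
    | prime_mul p a hpp ih =>
      intro h0 h1
      push_cast
      rw [jacobiSym.mul_left, jacobiSym.mul_left,
        ih (right_ne_zero_of_mul h0) fun q hq hd => h1 q hq (hd.mul_left _), key p]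
      rw [Int.natAbs_natCast]
      exact Nat.mul_dvd_mul (by norm_num) (h1 p hpp (dvd_mul_right _ _))
  have h2 := nat C.natAbs (Int.natAbs_ne_zero.2 hC) fun p hpp hd =>
    hp p hpp (Int.natCast_dvd.2 hd)
  rcases Int.natAbs_eq C with e | e
  · rw [e, h2]
  · rw [e, neg_eq_neg_one_mul, jacobiSym.mul_left, jacobiSym.mul_left, h2,
      key (-1) (Dvd.dvd.mul_right (by norm_num) _)]

theorem prod_mod {ι : Type} (s : Finset ι) {f g : ι → ℕ} {m : ℕ}
    (h : ∀ i ∈ s, f i ≡ g i [MOD m]) : ∏ i ∈ s, f i ≡ ∏ i ∈ s, g i [MOD m] := by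
  classical
  induction s using Finset.induction_on with
  | empty => rfl
  | insert a s ha ih =>
    rw [prod_insert ha, prod_insert ha]
    exact (h a (mem_insert_self _ _)).mul (ih fun i hi => h i (mem_insert_of_mem hi))

end BrU

open BrU
open Br (nontriv cop_of_one not_dvd_of_cop jac_one jac_sqf DZ_eq)

theorem ptU : PTUStmt := by
  intro n F B M h2 hB hM l hl
  have := nontriv h2
  obtain ⟨f, g, hfg⟩ := exists_pair_ne (Ix n)
  have h1 : 128 * B.N * (B.e g - B.e f) ∣ (l g : ℤ) - l f := by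
    refine (hM.dv g f hfg.symm).trans (Dvd.dvd.trans ?_ ((hl.one f).trans (hl.one g).symm).dvd)
    change (M : ℤ) ∣ ((8 * M : ℕ) : ℤ)
    push_cast
    exact dvd_mul_left _ _
  obtain ⟨d, hd⟩ := h1
  have hlin : ∀ j, (l j : ℤ) = l f + (B.e j - B.e f) * (128 * B.N * d) := fun j => by
    refine mul_left_cancel₀ (sub_ne_zero.2 (hB.ne g f hfg.symm)) ?_
    have h3 : (B.e g - B.e f) * l j = (B.e g - B.e j) * l f + (B.e j - B.e f) * l g :=
      hl.lin f g j
    linear_combination h3 + (B.e j - B.e f) * hd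
  obtain ⟨D, hD⟩ : ∃ D : ℤ, D = 128 * B.N * d := ⟨_, rfl⟩
  obtain ⟨X, hX⟩ : ∃ X : ℤ, X = l f - B.e f * D := ⟨_, rfl⟩
  have hv : ∀ j, F.LZ j (X * B.v0.1 + D * B.v1.1, X * B.v0.2 + D * B.v1.2) =
      B.μ j * B.a j * l j := fun j => by
    have h3 := hB.l0 j
    have h4 := hB.l1 j
    simp only [Surf.LZ] at h3 h4 ⊢
    rw [hlin j, ← hD]
    linear_combination X * h3 + D * h4 + B.μ j * B.a j * hX
  refine ⟨_, ?_, hv⟩
  refine Int.isCoprime_iff_gcd_eq_one.2 (Nat.coprime_of_dvd fun p hp d1 d2 => ?_)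
  have hp' : Prime (p : ℤ) := Nat.prime_iff_prime_int.1 hp
  replace d1 : (p : ℤ) ∣ X * B.v0.1 + D * B.v1.1 := Int.natCast_dvd.2 d1
  replace d2 : (p : ℤ) ∣ X * B.v0.2 + D * B.v1.2 := Int.natCast_dvd.2 d2
  by_cases hN : p ∣ B.N
  · have hpD : (p : ℤ) ∣ D := by
      rw [hD]
      exact ((Int.natCast_dvd_natCast.2 hN).mul_left _).mul_right _
    have hpX : ¬(p : ℤ) ∣ X := fun h => by
      have h3 : (p : ℤ) ∣ l f := by
        have : (l f : ℤ) = X + B.e f * D := by rw [hX]; ring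
        rw [this]
        exact dvd_add h (hpD.mul_left _)
      exact not_dvd_of_cop hp (cop_of_one (l_one h2 hM hl f)) (Int.natCast_dvd_natCast.1 h3) hN
    have e1 := (hp'.dvd_or_dvd ((dvd_add_left (hpD.mul_right _)).1 d1)).resolve_left hpX
    have e2 := (hp'.dvd_or_dvd ((dvd_add_left (hpD.mul_right _)).1 d2)).resolve_left hpX
    exact hp'.not_isUnit (hB.prim.isUnit_of_dvd' e1 e2)
  · have h3 : ∀ j, p ∣ B.a j * l j := fun j => by
      have h4 : (p : ℤ) ∣ B.μ j * (B.a j * l j) := by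
        rw [← mul_assoc, ← hv j]
        exact dvd_add (d1.mul_left _) (d2.mul_left _)
      have := (hp'.dvd_or_dvd h4).resolve_left fun h => hN (hB.mN j p hp h)
      exact_mod_cast this
    exact not_dvd_of_cop hp (cop_al hB hM hl hfg) (h3 f) (h3 g)

theorem brU (pt : PTUStmt) : BRUStmt := by
  intro n r F B M hF hB hM
  have hD := ok hF hB hM
  refine ⟨hD, fun l hl => ?_⟩
  obtain ⟨v, -, hv⟩ := pt n F B M hF.two hB hM l hl
  have hN : ∀ j, (l j).Coprime B.N := fun j => cop_of_one (l_one hF.two hM hl j)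
  have hone : (∏ k, B.a (1, k)) ≡ B.pr l 1 [MOD 128 * B.N] :=
    prod_mod _ fun k _ => by simpa using ((l_one hF.two hM hl (1, k)).mul_left (B.a (1, k))).symm
  have hA : (∏ k, B.a (1, k)).Coprime B.N := Nat.Coprime.prod_left fun k _ => hB.aN _
  refine ⟨⟨hl.nice hD, hB.pos, hB.two, fun p hp hd => ⟨?_, ?_, hB.odd p hp hd⟩, ?_, ?_, ?_, hB.d0,
    hB.dN, ?_, hB.d7, fun x hx h1 h2 => ?_⟩, ?_, ?_⟩
  · exact mem_VV.2 (.inl (mem_V0.2 (.inr (.inl
      ⟨p, Nat.mem_primeFactors.2 ⟨hp, hd, hB.pos.ne'⟩, rfl⟩))))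
  · rw [dg_N hd]
    refine jac_per hB.two hone hA (by exact_mod_cast hp.ne_zero) fun q hq k => ?_
    rwa [(Nat.prime_dvd_prime_iff_eq hq hp).1 (Int.natCast_dvd_natCast.1 k)]
  · rw [filter_cls hB hN (by decide), prod_pr hB hD hN hl.sqf]
  · rw [filter_cls hB hN (by decide), prod_pr hB hD hN hl.sqf]
  · have h1 := hF.sumZ v
    rw [DZ_eq hv, DZ_eq hv, DZ_eq hv, hB.p0, hB.p1, hB.p2] at h1
    have hg : B.g ^ 2 ≠ 0 := by
      rw [← hB.p1]
      exact mul_ne_zero (hF.c0 1) (prod_ne_zero_iff.2 fun k _ => hB.m0 _)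
    rw [← Nat.cast_prod, zer, prod_pr hB hD hN hl.sqf]
    exact mul_left_cancel₀ hg (by linear_combination -h1)
  · have := hone.of_dvd (show 4 ∣ 128 * B.N from Dvd.dvd.mul_right (by norm_num) _)
    exact Eq.trans this.symm hB.a4
  · rcases mem_VV.1 hx with hx | hx
    · rcases mem_V0.1 hx with rfl | ⟨p, hp, rfl⟩ | ⟨j, p, hp, rfl⟩
      · exact absurd rfl h1
      · exact absurd (Nat.dvd_of_mem_primeFactors hp) h2
      · rw [dg_a hB hp]
        exact diag hF hB hM hl hv j (Nat.prime_of_mem_primeFactors hp)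
          ((Nat.dvd_of_mem_primeFactors hp).mul_right _)
    · obtain ⟨t, p⟩ := x
      obtain ⟨j, rfl, hp⟩ := mem_gens.1 hx
      rw [dg_tg]
      exact diag hF hB hM hl hv j (Nat.prime_of_mem_primeFactors hp)
        ((Nat.dvd_of_mem_primeFactors hp).mul_left _)
  · have h1 : ∀ (c : Ix n → ℕ) (t : Ix n → Tag n), (∀ j, (t j).1 = j.1) →
        ∏ j : Ix n, ∏ p ∈ (c j).primeFactors,
          (if (t j, p).1.1 = 0 ∧ (t j, p) ≠ neg then (B.datU F M).dg (t j, p) else 1) =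
        ∏ k, ∏ p ∈ (c (0, k)).primeFactors, (B.datU F M).dg (t (0, k), p) := by
      intro c t ht
      rw [Fintype.prod_prod_type, prod_eq_single 0]
      · exact prod_congr rfl fun k _ => prod_congr rfl fun p hp => if_pos ⟨ht _, fun e =>
          (Nat.prime_of_mem_primeFactors hp).ne_one (Prod.mk.inj e).2⟩
      · intro i' _ hi
        exact prod_eq_one fun k _ => prod_eq_one fun p _ =>
          if_neg fun h => hi ((ht _).symm.trans h.1)
      · exact fun h => absurd (mem_univ 0) h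
    rw [prod_filter, prod_VV hB hD, if_neg (fun h => h.2 rfl), one_mul,
      h1 B.a (fun j => (j.1, none)) fun _ => rfl, h1 l tg fun _ => rfl, Base.sign,
      prod_eq_one (s := univ) (f := fun k => ∏ p ∈ (l (0, k)).primeFactors,
        (B.datU F M).dg (tg (0, k), p)) fun k _ => ?_, mul_one]
    · congr 1
      · refine prod_congr rfl fun p hp => ?_
        rw [if_pos ⟨rfl, fun e => (Nat.prime_of_mem_primeFactors hp).ne_one (Prod.mk.inj e).2⟩,
          dg_N (Nat.dvd_of_mem_primeFactors hp)]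
      · refine prod_congr rfl fun k _ => ?_
        rw [prod_congr rfl fun p hp => dg_a hB hp 0, jac_sqf _ (hB.sqf _)]
    · rw [prod_congr rfl fun p _ => dg_tg (0, k) p, jac_sqf _ (hl.sqf _),
        jac_one (l_one hF.two hM hl _) (cZ_ne hF _) (cZ_N hB _)]
  · have := prod_VV hB hD l fun _ => Multiplicative.ofAdd (1 : ℕ)
    simpa using congrArg Multiplicative.toAdd this

theorem sgnU (base : BASEUStmt) : SGNStmt := by
  intro n r F hF ε
  obtain ⟨N, b, h⟩ := base n r F hF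
  obtain ⟨B, hB, e, hb, -⟩ := h 0
  obtain ⟨B', hB', e', hb', hp⟩ := h
    (ε + 1 + N.primeFactors.card + if B.sign F = 1 then 0 else 1)
  have hc : ∀ j, B'.a j ≡ B.a j [MOD 128 * N] := fun j =>
    Nat.modEq_iff_dvd.2 (by simpa using dvd_sub (hb j) (hb' j))
  have hs : B'.sign F = B.sign F := by
    unfold Base.sign
    rw [e, e']
    subst e'
    congr 1
    · refine prod_congr rfl fun p hp => jac_per hB'.two (prod_mod _ fun k _ => hc _)
        (Nat.Coprime.prod_left fun k _ => hB'.aN _)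
        (by exact_mod_cast (Nat.prime_of_mem_primeFactors hp).ne_zero) fun q hq k => ?_
      rw [(Nat.prime_dvd_prime_iff_eq hq (Nat.prime_of_mem_primeFactors hp)).1
        (Int.natCast_dvd_natCast.1 k)]
      exact Nat.dvd_of_mem_primeFactors hp
    · exact prod_congr rfl fun k _ => jac_per hB'.two (hc _) (hB'.aN _) (cZ_ne hF _) (cZ_N hB' _)
  refine ⟨B', hB', ?_⟩
  rw [hs, e']
  omega

end Pool.Agent.MP_a43263_nt.RG
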