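import Pool.Agent.MP_a43263_nt.RU.Spec
import Pool.Agent.MP_a43263_nt.RG.Ex

/-! PROJECT RANKG, second version: the hypotheses can be met for every rank up to five. -/

namespace Pool.Agent.MP_a43263_nt.RG

open Cert

theorem Surf.Hyp.toU {n r : ℕ} {F : Surf n} (h : F.Hyp r) (g : ∀ j, F.gam j ≠ 0) : F.HypU r where
  ev := h.ev
  c0 := h.c0
  ne := h.ne
  sum := h.sum
  pos := by
    obtain ⟨k, s, hs⟩ := h.split
    refine ⟨k, lt_of_le_of_ne (hs ▸ mul_self_nonneg s) (g _).symm⟩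
  unr := fun p hp => by
    obtain ⟨k, hk⟩ := h.split
    refine ⟨k, 1, fun e => hp.one_lt.ne' ?_, fun _ => rfl, by simpa using hk⟩
    exact_mod_cast Int.eq_one_of_dvd_one (by positivity) e
  card := h.card
  sol := h.sol

theorem S5_hypU : S5.HypU 5 where
  ev := by decide
  c0 := S5_pre.c0
  ne := fun j k e => by rw [L_root]; exact_mod_cast S5_pre.ne j k e
  sum := S5_pre.sum ℚ
  pos := ⟨2, by rw [gam_eq]; exact_mod_cast (by decide +kernel : 0 < gamZ S5 (0, 2))⟩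
  unr := fun p hp => by
    by_cases e : p = 29
    · refine ⟨1, -1, by subst e; decide, by omega, ?_⟩
      rw [gam_eq, ← Int.cast_mul]
      exact of_isq (by decide +kernel)
    · refine ⟨2, 29, fun d => e ?_, fun _ => by decide, ?_⟩
      · exact (Nat.prime_dvd_prime_iff_eq hp (by norm_num)).1 (by exact_mod_cast d)
      · rw [gam_eq, ← Int.cast_mul]
        exact of_isq (by decide +kernel)
  card := S5_cert.1
  sol := S5_cert.2

theorem examplesU (r : ℕ) (hr : r ≤ 5) : ∃ (n : ℕ) (F : Surf n), F.HypU r := by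
  have g : ∀ {n : ℕ} {F : Surf n}, Cert.Pre F → ∀ j, F.gam j ≠ 0 := fun h j => by
    rw [gam_eq]; exact_mod_cast h.gam j
  interval_cases r
  exacts [⟨_, _, S0_hyp.toU (g S0_pre)⟩, ⟨_, _, S1_hyp.toU (g S1_pre)⟩, ⟨_, _, S2_hyp.toU (g S2_pre)⟩,
    ⟨_, _, S3_hyp.toU (g S3_pre)⟩, ⟨_, _, S4_hyp.toU (g S4_pre)⟩, ⟨_, _, S5_hypU⟩]

end Pool.Agent.MP_a43263_nt.RG
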