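import Pool.Agent.MP_a43263_nt.RU.Spec
import Pool.Agent.MP_a43263_nt.RG.Geo

/-! PROJECT RANKG, second version: geometric classes satisfy the residue conditions. -/

set_option autoImplicit false

noncomputable section

namespace Pool.Agent.MP_a43263_nt.RG

open Finset GeoP

namespace GeoU

variable {n : ℕ}

/-- the values of the forms at a root -/
theorem root_val {r : ℕ} (F : Surf n) (B : Base n) (hF : F.HypU r) (hB : B.OkU F) (k : Ix n) :
    ∃ τ : ℚ, τ ≠ 0 ∧ ∀ j, F.L j (F.root k) = τ * (((B.μ j : ℚ) * B.a j) * (B.e j - B.e k)) := by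
  obtain ⟨k', hk'⟩ : ∃ k' : Ix n, k' ≠ k := by
    refine ⟨(k.1 + 1, k.2), fun h => ?_⟩
    have h1 : k.1 + 1 = k.1 := congrArg Prod.fst h
    revert h1
    generalize k.1 = x
    revert x
    decide
  have h0 : ∀ j, (F.A j : ℚ) * B.v0.1 + F.B j * B.v0.2 = B.μ j * B.a j := fun j => by
    exact_mod_cast hB.l0 j
  have h1 : ∀ j, (F.A j : ℚ) * B.v1.1 + F.B j * B.v1.2 = B.μ j * B.a j * B.e j := fun j => by
    exact_mod_cast hB.l1 j
  have hne : ((B.μ k' : ℚ) * B.a k') * (B.e k' - B.e k) ≠ 0 := by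
    refine mul_ne_zero (mul_ne_zero ?_ ?_) ?_
    · exact_mod_cast hB.m0 k'
    · exact_mod_cast (hB.sqf k').ne_zero
    · exact_mod_cast sub_ne_zero.2 (hB.ne k' k hk')
  refine ⟨F.L k' (F.root k) / (((B.μ k' : ℚ) * B.a k') * (B.e k' - B.e k)),
    div_ne_zero (hF.ne k' k hk') hne, fun j => ?_⟩
  rw [div_mul_eq_mul_div, eq_div_iff hne]
  simp only [Surf.L, Surf.root]
  linear_combination
    (-((F.A j : ℚ) * F.B k + F.B j * -F.A k)) * (h1 k' - (B.e k : ℚ) * h0 k') +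
      ((F.A k' : ℚ) * F.B k + F.B k' * -F.A k) * (h1 j - (B.e k : ℚ) * h0 j) +
      ((F.A j : ℚ) * F.B k' - F.A k' * F.B j) * (h1 k - (B.e k : ℚ) * h0 k)

/-- a geometric class gives an element of the residue group -/
theorem mem {r : ℕ} (kc : KCStmt) (F : Surf n) (B : Base n) (M : ℕ) (hF : F.HypU r) (hB : B.OkU F)
    (hD : (B.datU F M).Ok) {y : Finset (Ix n)} (hy : y ∈ Yc n) {U : Finset (Gen n)}
    (hU : U ⊆ (B.datU F M).V0) (h : Geo (B.datU F M) y U) : ∃ u, F.InS u y := by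
  have hev : ∀ i, Even (y.filter fun j => j.1 ≠ i).card := (mem_filter.1 hy).2
  refine ⟨fun i => (Gv i U : ℚ) * ∏ j ∈ y.filter (fun j => j.1 ≠ i), ((B.μ j : ℚ) * B.a j),
    fun i => ?_, ?_, hev, fun k => ?_⟩
  · refine mul_ne_zero ?_ (prod_ne_zero_iff.2 fun j _ => mul_ne_zero ?_ ?_)
    · exact_mod_cast Gv_ne kc hD.nice hU i
    · exact_mod_cast hB.m0 j
    · exact_mod_cast (hB.sqf j).ne_zero
  · have e1 := prod_three U (fun a => a.1.1) val
    have e2 := prod_three y (fun j => j.1) fun j => ((B.μ j : ℚ) * B.a j)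
    have e1' : (Gv 0 U : ℚ) * Gv 1 U * Gv 2 U =
        ((∏ a ∈ U, val a : ℤ) : ℚ) * ((∏ a ∈ U, val a : ℤ) : ℚ) := by
      exact_mod_cast e1
    refine ⟨((∏ a ∈ U, val a : ℤ) : ℚ) * ∏ j ∈ y, ((B.μ j : ℚ) * B.a j), ?_⟩
    rw [mul_mul_mul_comm ((∏ a ∈ U, val a : ℤ) : ℚ), ← e1', ← e2]
    ring
  · obtain ⟨τ, -, hτ⟩ := GeoU.root_val F B hF hB k
    obtain ⟨m, hm⟩ := hev k.1
    obtain ⟨s, hs⟩ := h k
    have hs' : (Gv k.1 U : ℚ) * ((if k ∈ y then F.gam k else 1) *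
        ∏ j ∈ y.filter (fun j => j.1 ≠ k.1), ((B.e j : ℚ) - B.e k)) = s * s := by
      have := congrArg (fun z : ℤ => (z : ℚ)) hs
      simp only [Cy, Base.datU, Base.dat, Int.cast_mul, Int.cast_prod, Int.cast_sub] at this
      rw [← this, gam_eq]
      split_ifs <;> simp
    refine ⟨s * τ ^ m * ∏ j ∈ y.filter (fun j => j.1 ≠ k.1), ((B.μ j : ℚ) * B.a j), ?_⟩
    simp only [Surf.del, hτ, prod_mul_distrib, prod_const, hm, pow_add, Rat.cast_id]
    linear_combination (τ ^ m * τ ^ m *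
      ((∏ j ∈ y.filter (fun j => j.1 ≠ k.1), (B.μ j : ℚ)) *
        ∏ j ∈ y.filter (fun j => j.1 ≠ k.1), (B.a j : ℚ)) ^ 2) * hs'

end GeoU

theorem geoU : KCStmt → GEOUStmt := by
  intro kc n r F B M hF hB hD
  classical
  rw [← hF.card, ← Set.ncard_coe_finset]
  refine Set.ncard_le_ncard_of_injOn Prod.fst (fun x hx => ?_) (fun x hx x' hx' hxx => ?_)
    (Set.toFinite _)
  · obtain ⟨hx1, hx2⟩ := mem_filter.1 (mem_coe.1 hx)
    obtain ⟨hy, hU⟩ := mem_product.1 hx1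
    exact GeoU.mem kc F B M hF hB hD hy (mem_powerset.1 hU) hx2
  · obtain ⟨hx1, hx2⟩ := mem_filter.1 (mem_coe.1 hx)
    obtain ⟨hx1', hx2'⟩ := mem_filter.1 (mem_coe.1 hx')
    refine Prod.ext hxx ?_
    rw [← hxx] at hx2'
    exact GeoP.inj kc _ hD x.1 (mem_powerset.1 (mem_product.1 hx1).2)
      (mem_powerset.1 (mem_product.1 hx1').2) hx2 hx2'

end Pool.Agent.MP_a43263_nt.RG
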