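import Pool.Agent.MP_a43263_nt.RU.Spec
import Pool.Agent.MP_a43263_nt.RG.Good

/-! PROJECT RANKG, second version: good fibres. -/

set_option autoImplicit false

noncomputable section

namespace Pool.Agent.MP_a43263_nt.RG

open Finset

namespace GoodU

open GoodAux (Evn Od L_cast L_root D_val)

variable {n : ℕ} {F : Surf n}

variable {B : Base n} {p : ℕ} [Fact p.Prime]

theorem evn_root (hB : B.OkU F) (hp : ¬p ∣ B.N) {j k : Ix n} (h : j.1 ≠ k.1) :
    Evn p (F.L j (F.root k)) := by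
  rw [L_root]
  exact GoodAux.Evn.int fun hd => hp (hB.rN j k (fun e => h (congrArg Prod.fst e)) p Fact.out hd)

theorem evn_D (hB : B.OkU F) (hp : ¬p ∣ B.N) {i : Fin 3} {k : Ix n} (h : i ≠ k.1) :
    Evn p (F.D i (F.root k)) :=
  (GoodAux.Evn.int fun hd => hp (hB.cN i p Fact.out hd)).mul (GoodAux.Evn.prod fun _ _ => evn_root hB hp h)

theorem evn_gam (hB : B.OkU F) (hp : ¬p ∣ B.N) (k : Ix n) : Evn p (F.gam k) := by
  obtain ⟨i, k⟩ := k
  fin_cases i
  · exact evn_D (i := 1) (k := (0, k)) hB hp (by simp)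
  · exact (evn_D (i := 2) (k := (1, k)) hB hp (by simp)).neg
  · exact (evn_D (i := 1) (k := (2, k)) hB hp (by simp)).neg

theorem evn_u (hB : B.OkU F) (hp : ¬p ∣ B.N) {u : Fin 3 → ℚ} {y : Finset (Ix n)} (h : F.InS u y)
    (k : Ix n) : Evn p (u k.1) := by
  have h1 : Evn p (∏ j ∈ y.filter (fun j => j.1 ≠ k.1), F.L j (F.root k)) :=
    GoodAux.Evn.prod fun j hj => evn_root hB hp (mem_filter.1 hj).2
  have h2 : Evn p (if k ∈ y then F.gam k else 1) := by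
    split_ifs
    · exact evn_gam hB hp k
    · exact GoodAux.Evn.one
  have h3 := h.2.2.2 k
  simp only [Surf.del, Rat.cast_id] at h3
  exact ((GoodAux.Evn.of_sq (mul_ne_zero (mul_ne_zero (h.1 _) h1.1) h2.1) h3).left h2).left h1

/-- the classes stay different after specialisation -/
theorem sub_of_sq {M : ℕ} (hB : B.OkU F) (hM : B.Fits M) {l : Ix n → ℕ}
    (hl : Adm (B.datU F M) l) (h1 : ∀ j, 1 < l j) {v : ℤ × ℤ}
    (hv : ∀ j, F.LZ j v = B.μ j * B.a j * l j) {u u' : Fin 3 → ℚ} {y y' : Finset (Ix n)}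
    (hy : F.InS u y) (hy' : F.InS u' y')
    (h₂ : IsSquare (F.del u y 2 ((v.1 : ℚ), (v.2 : ℚ)) * F.del u' y' 2 ((v.1 : ℚ), (v.2 : ℚ))))
    (h₁ : IsSquare (F.del u y 1 ((v.1 : ℚ), (v.2 : ℚ)) * F.del u' y' 1 ((v.1 : ℚ), (v.2 : ℚ)))) :
    y ⊆ y' := by
  intro j hj
  by_contra hj'
  obtain ⟨q, hq, hql⟩ := Nat.exists_prime_and_dvd (h1 j).ne'
  have : Fact q.Prime := ⟨hq⟩
  have hqM : ¬q ∣ M := fun hd => by
    have h8 : q ∣ 8 * M := hd.mul_left 8
    have := ((hl.one j).of_dvd h8).symm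
    rw [Nat.ModEq, Nat.mod_eq_zero_of_dvd hql, Nat.mod_eq_of_lt hq.one_lt] at this
    exact one_ne_zero this
  have hqN : ¬q ∣ B.N := fun hd => by
    have hne : j ≠ (j.1 + 1, j.2) := fun e => by
      have := congrArg Prod.fst e
      simp at this
    have h := hM.dv j _ hne
    have h' : (q : ℤ) ∣ (M : ℤ) :=
      (((Int.natCast_dvd_natCast.2 hd).mul_left 128).mul_right _).trans h
    exact hqM (Int.natCast_dvd_natCast.1 h')
  have hma : ∀ k, Evn q ((B.μ k : ℚ) * (B.a k : ℚ)) := fun k =>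
    (GoodAux.Evn.int fun hd => hqN (hB.mN k q hq hd)).mul (GoodAux.Evn.nat fun hd => hqM (hd.trans (hM.aM k)))
  have hL : ∀ k, F.L k ((v.1 : ℚ), (v.2 : ℚ)) = (l k : ℚ) * ((B.μ k : ℚ) * (B.a k : ℚ)) :=
    fun k => by
      rw [L_cast, hv k]
      push_cast
      ring
  have hk : ∀ k, k ≠ j → Evn q (F.L k ((v.1 : ℚ), (v.2 : ℚ))) := fun k hk => by
    rw [hL]
    refine (GoodAux.Evn.nat fun hd => hq.one_lt.ne' ?_).mul (hma k)
    exact Nat.eq_one_of_dvd_coprimes (hl.cop k j hk) hd hql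
  have hjo : Od q (F.L j ((v.1 : ℚ), (v.2 : ℚ))) := by
    rw [hL]
    exact (GoodAux.Od.nat (hl.sqf j) hql).mul (hma j)
  have key : ∀ i : Fin 3, j.1 ≠ i → ¬IsSquare
      (F.del u y i ((v.1 : ℚ), (v.2 : ℚ)) * F.del u' y' i ((v.1 : ℚ), (v.2 : ℚ))) := by
    intro i hi
    have e1 : Evn q (F.del u' y' i ((v.1 : ℚ), (v.2 : ℚ))) := by
      simp only [Surf.del, Rat.cast_id]
      exact (evn_u hB hqN hy' (i, j.2)).mul (GoodAux.Evn.prod fun k hk' =>
        hk k fun e => hj' (e ▸ (mem_filter.1 hk').1))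
    have e2 : Od q (F.del u y i ((v.1 : ℚ), (v.2 : ℚ))) := by
      simp only [Surf.del, Rat.cast_id]
      rw [← mul_prod_erase _ _ (mem_filter.2 ⟨hj, hi⟩), mul_left_comm]
      exact hjo.mul ((evn_u hB hqN hy (i, j.2)).mul (GoodAux.Evn.prod fun k hk' =>
        hk k (ne_of_mem_erase hk')))
    exact (e2.mul e1).not_sq
  by_cases hc : j.1 = 1
  · exact key 2 (by rw [hc]; decide) h₂
  · exact key 1 hc h₁

end GoodU

open GoodU in
open GoodAux (L_cast D_val) in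
theorem goodU (alg : ALGUStmt) (br : BRUStmt) (sp : SPEStmt) : GOODUStmt := by
  classical
  intro n r F B M hF hB hM l hl h1 hK v hv hv2
  have hloc := ((br n r F B M hF hB hM).2 l hl).1
  have hg : (B.g : ℚ) ≠ 0 := by
    have h0 : B.g ^ 2 ≠ 0 := by
      rw [← hB.p1]
      exact mul_ne_zero (hF.c0 1) (prod_ne_zero_iff.2 fun k _ => hB.m0 _)
    exact_mod_cast (pow_ne_zero_iff two_ne_zero).1 h0
  obtain ⟨u, hu⟩ : ∃ u : Finset (Ix n) → Fin 3 → ℚ, ∀ y, (∃ w, F.InS w y) → F.InS (u y) y :=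
    ⟨fun y => if h : ∃ w, F.InS w y then h.choose else 0, fun y h => by
      simp only [dif_pos h]
      exact h.choose_spec⟩
  have hL : ∀ j, F.L j ((v.1 : ℚ), (v.2 : ℚ)) ≠ 0 := fun j => by
    rw [L_cast, hv j]
    have h2 := (hB.sqf j).ne_zero
    have h3 := h1 j
    exact_mod_cast mul_ne_zero (mul_ne_zero (hB.m0 j) (by exact_mod_cast h2)) (by omega)
  have hd : ∀ y, (∃ w, F.InS w y) → ∀ i, F.del (u y) y i ((v.1 : ℚ), (v.2 : ℚ)) ≠ 0 :=
    fun y hy i => by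
      simp only [Surf.del, Rat.cast_id]
      exact mul_ne_zero ((hu y hy).1 i) (prod_ne_zero_iff.2 fun j _ => hL j)
  unfold Surf.fibre
  rw [D_val hv 1 hB.p1, D_val hv 2 hB.p2]
  refine alg n B.N B.δ _ _ _ _ B.g r (Finset (Ix n)) (univ.filter fun y => ∃ w, F.InS w y)
    (fun y => F.del (u y) y 2 ((v.1 : ℚ), (v.2 : ℚ)))
    (fun y => F.del (u y) y 1 ((v.1 : ℚ), (v.2 : ℚ))) hloc hg ?_ ?_ ?_ hK
  · rw [← hF.card, ← Set.ncard_coe_finset]
    congr 1
    ext y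
    simp
  · intro y hy
    have hy' := (mem_filter.1 hy).2
    refine ⟨hd y hy' 2, hd y hy' 1, ?_⟩
    rw [← D_val hv 1 hB.p1, ← D_val hv 2 hB.p2]
    exact sp n F (u y) y hF.ev (hu y hy').2.2.1 (hF.sol _ _ (hu y hy')) _
      (Int.cast_ne_zero.2 hv2)
  · intro y hy y' hy' h₂ h₁
    have a := hu y (mem_filter.1 hy).2
    have a' := hu y' (mem_filter.1 hy').2
    refine Subset.antisymm (sub_of_sq hB hM hl h1 hv a a' h₂ h₁)
      (sub_of_sq hB hM hl h1 hv a' a ?_ ?_)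
    · rwa [mul_comm]
    · rwa [mul_comm]

end Pool.Agent.MP_a43263_nt.RG
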