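import Pool.Agent.MP_a43263_nt.RU.Spec
import Pool.Agent.MP_a43263_nt.RG.Loc

/-! PROJECT RANKG, second version, module LOC: the local conditions of the 2-descent at the
primes where the difference of the roots has odd order. -/

set_option autoImplicit false

noncomputable section

namespace Pool.Agent.MP_a43263_nt.RG

open Finset
open R2 (Ker sg Sol2 ELS)
open R2.Loc (Q affine val_congr val_unit val_sq exists_sqf scale swap real_aux int_good int_one
  even_iff norm_int jac_of_Q extract gcd_one)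

namespace LocUH

open LocH

section padic

variable {p : ℕ} [hp : Fact p.Prime]

theorem ne_of_odd {x : ℚ_[p]} (h : Odd x.valuation) : x ≠ 0 := by
  rintro rfl
  simp at h

theorem val_div {x y : ℚ_[p]} (hx : x ≠ 0) (hy : y ≠ 0) :
    (x / y).valuation = x.valuation - y.valuation := by
  rw [div_eq_mul_inv, Padic.valuation_mul hx (inv_ne_zero hy), Padic.valuation_inv]
  ring

theorem cls_odd {η : ℝ} (h0 : 0 < η) (hη : η ≤ 1) {a b d₂ d₃ : ℚ_[p]} (h2 : d₂ ≠ 0)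
    (h3 : d₃ ≠ 0) (h : Sol2 a b d₂ d₃) (ha : ‖a‖ = 1) (hδ : ‖a - b‖ < η ^ 2)
    (hv : Odd (a - b).valuation)
    (H : ∀ x : ℚ_[p], Odd (x - 1).valuation → ‖x - 1‖ < 1 → Q η (a * x) → ‖x - 1‖ < η) :
    Odd d₂.valuation ∧ Q η (a * (d₂ * d₃)) ∨ Even d₂.valuation ∧ Q η (d₂ * d₃) := by
  rcases affine h2 h3 h with h | ⟨X, s₀, s₂, s₃, e0, e2, e3⟩
  · exact .inr ⟨(h η h0).1.even hη, (h η h0).1.mul hη (h η h0).2⟩
  have ha0 : a ≠ 0 := by rintro rfl; simp at ha
  have hδ0 := ne_of_odd hv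
  have fin : ‖X - a‖ < η → Q η (a * (d₂ * d₃)) := fun h1 =>
    (R2.Loc.Q.of_close (x := X) (y := a) (by rwa [ha, mul_one]) hη).cancel hη (r := s₀)
      (by rw [e0]; ring)
  by_cases hc : ‖a - b‖ < η * ‖X - a‖
  · have q : Q η (d₂ * d₃) := by
      refine (R2.Loc.Q.of_close (x := X - b) (y := X - a) (by simpa using hc) hη).cancel hη
        (r := s₂ * s₃) ?_
      rw [e2, e3]; ring
    rcases Int.even_or_odd d₂.valuation with ev | od
    · exact .inr ⟨ev, q⟩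
    refine .inl ⟨od, fin ?_⟩
    have hu : X - a ≠ 0 := by
      intro h
      rw [h, norm_zero, mul_zero] at hc
      exact absurd hc (not_lt.2 (norm_nonneg _))
    have ou : Odd (X - a).valuation := by
      rw [val_sq hu e2]
      exact od.add_even (even_two_mul _)
    have n1 : ‖X - a‖ ≠ 1 := fun h => by
      rw [val_unit h] at ou
      exact absurd ou (by decide)
    have hX : X ≠ 0 := by
      rintro rfl
      exact n1 (by simpa using ha)
    have hs : s₀ ≠ 0 := by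
      rintro rfl
      exact hX (by simp [e0])
    have qX : Q η X := q.cancel hη (r := s₀⁻¹) (by rw [e0]; field_simp)
    have lt : ‖X - a‖ < 1 := by
      refine lt_of_le_of_ne (not_lt.1 fun h1 => ?_) n1
      have f0 : ‖X‖ = ‖X - a‖ := Padic.norm_eq_of_norm_sub_lt_right (by simpa [ha] using h1)
      rw [← val_congr f0] at ou
      exact Int.not_even_iff_odd.2 ou (qX.even hη)
    have e : X / a - 1 = (X - a) / a := by field_simp
    have := H (X / a) (by rwa [e, val_div hu ha0, val_unit ha, sub_zero])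
      (by rwa [e, norm_div, ha, div_one]) (by rwa [mul_div_cancel₀ _ ha0])
    rwa [e, norm_div, ha, div_one] at this
  · have q := fin (by nlinarith [not_lt.1 hc])
    refine .inl ⟨Int.not_even_iff_odd.1 fun ev => ?_, q⟩
    have ev3 := q.even hη
    rw [Padic.valuation_mul ha0 (mul_ne_zero h2 h3), val_unit ha, zero_add,
      Padic.valuation_mul h2 h3, Int.even_add] at ev3
    have ev3 := ev3.1 ev
    have k2 : X - a ≠ 0 → Even (X - a).valuation := fun h => by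
      rw [val_sq h e2]; exact ev.add (even_two_mul _)
    have k3 : X - b ≠ 0 → Even (X - b).valuation := fun h => by
      rw [val_sq h e3]; exact ev3.add (even_two_mul _)
    have no : ∀ z : ℚ_[p], (z ≠ 0 → Even z.valuation) → ‖z‖ ≠ ‖a - b‖ := fun z hz e => by
      have := hz (by rw [← norm_ne_zero_iff, e]; exact norm_ne_zero_iff.2 hδ0)
      rw [val_congr e] at this
      exact Int.not_even_iff_odd.2 hv this
    have gt : ‖a - b‖ < ‖X - a‖ := by
      refine lt_of_le_of_ne (not_lt.1 fun h1 => no _ k3 ?_) (no _ k2).symm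
      exact Padic.norm_eq_of_norm_sub_lt_right (by simpa using h1)
    have hu : X - a ≠ 0 := norm_pos_iff.1 ((norm_nonneg _).trans_lt gt)
    have hw : X - b ≠ 0 := fun h => by
      rw [show X = b from sub_eq_zero.1 h, norm_sub_rev] at gt
      exact lt_irrefl _ gt
    have hs2 : s₂ ≠ 0 := by
      rintro rfl
      exact hu (by simp [e2])
    have hs3 : s₃ ≠ 0 := by
      rintro rfl
      exact hw (by simp [e3])
    have e : (X - b) / (X - a) - 1 = (a - b) / (X - a) := by field_simp; ring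
    have pos : 0 < ‖X - a‖ := norm_pos_iff.2 hu
    have := H ((X - b) / (X - a)) (by rw [e, val_div hδ0 hu]; exact hv.sub_even (k2 hu))
      (by rwa [e, norm_div, div_lt_one pos])
      (q.cancel hη (r := d₂ * s₂ / s₃) (by rw [e2, e3]; field_simp))
    rw [e, norm_div, div_lt_iff₀ pos] at this
    exact hc this

theorem int_odd {η : ℝ} (h0 : 0 < η) (hη : η ≤ 1) {a b n₂ n₃ c : ℤ} {e : ℕ} (h2 : Squarefree n₂)
    (h3 : Squarefree n₃) (h : Sol2 (a : ℚ_[p]) b n₂ n₃) (ha : ¬(p : ℤ) ∣ a)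
    (hδ : ‖((a - b : ℤ) : ℚ_[p])‖ < η ^ 2) (hab : a - b = p ^ (2 * e + 1) * c) (hc : ¬(p : ℤ) ∣ c)
    (H : ∀ x : ℚ_[p], Odd (x - 1).valuation → ‖x - 1‖ < 1 → Q η ((a : ℚ_[p]) * x) →
      ‖x - 1‖ < η) :
    ((p : ℤ) ∣ n₂ ↔ (p : ℤ) ∣ n₃) ∧ ∀ d r : ℤ, n₂ * n₃ = d * r ^ 2 →
      Q η (((if (p : ℤ) ∣ n₂ then a else 1) * d : ℤ) : ℚ_[p]) := by
  have g2 : (n₂ : ℚ_[p]) ≠ 0 := by exact_mod_cast h2.ne_zero
  have g3 : (n₃ : ℚ_[p]) ≠ 0 := by exact_mod_cast h3.ne_zero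
  have hn := norm_int ha
  have ha0 : (a : ℚ_[p]) ≠ 0 := by intro h; simp [h] at hn
  have hc0 : (c : ℚ_[p]) ≠ 0 := by intro h; simpa [h] using norm_int hc
  have hv : Odd ((a : ℚ_[p]) - b).valuation := by
    have : (a : ℚ_[p]) - b = (p : ℚ_[p]) ^ (2 * e + 1) * c := by exact_mod_cast hab
    rw [this, Padic.valuation_mul (pow_ne_zero _ (by exact_mod_cast hp.out.ne_zero)) hc0,
      Padic.valuation_pow, Padic.valuation_p, val_unit (norm_int hc)]
    exact ⟨e, by push_cast; ring⟩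
  have k := cls_odd h0 hη g2 g3 h hn (by exact_mod_cast hδ) hv H
  have ev : Even ((n₂ : ℚ_[p]) * n₃).valuation := by
    rcases k with ⟨-, q⟩ | ⟨-, q⟩
    · have := q.even hη
      rwa [Padic.valuation_mul ha0 (mul_ne_zero g2 g3), val_unit hn, zero_add] at this
    · exact q.even hη
  rw [Padic.valuation_mul g2 g3, Int.even_add, even_iff h2, even_iff h3] at ev
  refine ⟨by tauto, fun d r hd => ?_⟩
  have hd' : (n₂ : ℚ_[p]) * n₃ = d * r ^ 2 := by exact_mod_cast hd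
  rcases k with ⟨o, q⟩ | ⟨o, q⟩
  · rw [← Int.not_even_iff_odd, even_iff h2, not_not] at o
    rw [if_pos o]
    exact q.cancel hη (r := r) (by rw [hd']; push_cast; ring)
  · rw [even_iff h2] at o
    rw [if_neg o, one_mul]
    exact q.cancel hη (r := r) hd'

end padic

theorem unit_two {s : ℚ_[2]} (h : ‖s‖ = 1) : ‖s - 1‖ ≤ 1 / 2 := by
  obtain ⟨m, h1, h2⟩ := PadicInt.exists_mem_range (⟨s, h.le⟩ : ℤ_[2])
  rw [IsLocalRing.mem_maximalIdeal, PadicInt.mem_nonunits] at h2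
  have h3 : ‖s - m‖ < 1 := h2
  interval_cases m
  · simp [h] at h3
  · have := (Padic.norm_le_pow_iff_norm_lt_pow_add_one (s - 1) (-1)).2 (by simpa using h3)
    norm_num at this ⊢
    exact this

/-- a unit that is close to a square -/
theorem close_two {x : ℚ_[2]} (hx : ‖x‖ = 1) (h : Q (1 / 4) x) : ‖x - 1‖ ≤ 1 / 4 := by
  obtain ⟨s, hs, h⟩ := h
  have h1 : ‖x / s ^ 2‖ = 1 := by
    have := Padic.norm_eq_of_norm_sub_lt_right (z1 := x / s ^ 2) (z2 := 1)
      (by rw [norm_one]; linarith)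
    simpa using this
  rw [norm_div, hx, norm_pow, div_eq_one_iff_eq (by positivity)] at h1
  have hs1 : ‖s‖ = 1 := by nlinarith [norm_nonneg s]
  have k1 := unit_two hs1
  have k2 := unit_two (s := -s) (by rwa [norm_neg])
  have e : x - 1 = (x / s ^ 2 - 1) * s ^ 2 + (s - 1) * -(-s - 1) := by field_simp; ring
  rw [e]
  refine (IsUltrametricDist.norm_add_le_max _ _).trans (max_le ?_ ?_)
  · rw [norm_mul, norm_pow, hs1, one_pow, mul_one]; exact h.le
  · rw [norm_mul, norm_neg]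
    nlinarith [norm_nonneg (s - 1), norm_nonneg (-s - 1)]

theorem hyp_two {a : ℚ_[2]} (ha : ‖a - 1‖ ≤ 1 / 4) (x : ℚ_[2]) (o : Odd (x - 1).valuation)
    (h1 : ‖x - 1‖ < 1) (q : Q (1 / 4) (a * x)) : ‖x - 1‖ < 1 / 4 := by
  have na : ‖a‖ = 1 := by
    simpa using Padic.norm_eq_of_norm_sub_lt_right (z1 := a) (z2 := 1)
      (by rw [norm_one]; linarith)
  have nx : ‖x‖ = 1 := by
    simpa using Padic.norm_eq_of_norm_sub_lt_right (z1 := x) (z2 := 1) (by rwa [norm_one])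
  have k := close_two (by rw [norm_mul, na, nx, mul_one]) q
  have e : x - 1 = (a * x - 1) + -((a - 1) * x) := by ring
  have le : ‖x - 1‖ ≤ 1 / 4 := by
    rw [e]
    refine (IsUltrametricDist.norm_add_le_max _ _).trans (max_le k ?_)
    rwa [norm_neg, norm_mul, nx, mul_one]
  refine lt_of_le_of_ne le fun h => ?_
  have : (x - 1).valuation = ((2 : ℕ) ^ 2 : ℚ_[2]).valuation :=
    val_congr (by rw [h, norm_pow, Padic.norm_p]; norm_num)
  rw [this, Padic.valuation_pow, Padic.valuation_p] at o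
  exact absurd o (by decide)

/-- the local condition at a prime of `N` -/
theorem at_N {p a b e : ℕ} (hp : p.Prime) {n₂ n₃ c : ℤ} (s2 : Squarefree n₂) (s3 : Squarefree n₃)
    (S : ∀ _ : Fact p.Prime, Sol2 ((a : ℤ) : ℚ_[p]) ((b : ℤ) : ℚ_[p]) n₂ n₃)
    (hD : ¬(p : ℤ) ∣ a) (a4 : a % 4 = 1) (hab : (a : ℤ) - b = p ^ (2 * e + 1) * c)
    (hc : ¬(p : ℤ) ∣ c) (d7 : (128 : ℤ) ∣ a - b) : ((p : ℤ) ∣ n₂ ↔ (p : ℤ) ∣ n₃) ∧
      ∀ (d : ℕ) (r : ℤ), n₂ * n₃ = d * r ^ 2 → ¬(p : ℤ) ∣ d →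
        if p = 2 then d % 4 = 1 ∧ (if (p : ℤ) ∣ n₂ then jacobiSym p a else 1) * jacobiSym 2 d = 1
        else (if (p : ℤ) ∣ n₂ then jacobiSym p a else 1) * jacobiSym d p = 1 := by
  have := Fact.mk hp
  have nd : ∀ d : ℕ, ¬(p : ℤ) ∣ d → ¬(p : ℤ) ∣ (if (p : ℤ) ∣ n₂ then (a : ℤ) else 1) * d := by
    intro d hn k
    refine ((Nat.prime_iff_prime_int.1 hp).dvd_or_dvd k).elim (fun k => ?_) hn
    split_ifs at k
    · exact hD k
    · exact hp.not_dvd_one (by exact_mod_cast k)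
  by_cases q2 : p = 2
  · subst q2
    have le : ∀ (k : ℕ) (m : ℤ), 2 ^ k ∣ m → ‖(m : ℚ_[2])‖ ≤ ((2 : ℕ) : ℝ) ^ (-(k : ℤ)) :=
      fun k m h => (Padic.norm_int_le_pow_iff_dvd m k).2 h
    have a1 : ‖((a : ℤ) : ℚ_[2]) - 1‖ ≤ 1 / 4 := by
      have := le 2 (a - 1) (by omega)
      norm_num at this ⊢
      exact this
    obtain ⟨k1, k2⟩ := int_odd (η := 1 / 4) (by norm_num) (by norm_num) s2 s3 (S _) hD
      ((le 7 _ d7).trans_lt (by norm_num)) hab hc (hyp_two a1)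
    refine ⟨k1, fun d r hd hn => ?_⟩
    obtain ⟨t, ht⟩ := extract (k := 3) (by norm_num) (nd d hn)
      (by convert k2 d r hd using 1; norm_num)
    have h8 : ∀ m : ℕ, ¬(2 : ℤ) ∣ m → (8 : ℤ) ∣ m - t ^ 2 → m % 8 = 1 := by
      intro m hm h
      rcases Int.even_or_odd t with ⟨j, hj⟩ | ⟨j, hj⟩
      · have : t ^ 2 = 4 * j ^ 2 := by rw [hj]; ring
        omega
      · obtain ⟨i, hi⟩ := Int.even_mul_succ_self j
        have : t ^ 2 = 8 * i + 1 := by rw [hj]; linear_combination 4 * hi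
        omega
    have j8 : ∀ m : ℕ, m % 8 = 1 → jacobiSym 2 m = 1 := by
      intro m hm
      rw [jacobiSym.at_two (Nat.odd_iff.2 (by omega)), ZMod.χ₈_nat_eq_if_mod_eight]
      simp [hm, show m % 2 = 1 by omega]
    have hnd := nd d hn
    rw [if_pos rfl]
    split_ifs at ht hnd ⊢
    · have k := h8 (a * d) (by exact_mod_cast hnd) (by exact_mod_cast ht)
      have d0 : d ≠ 0 := by rintro rfl; simp at k
      refine ⟨?_, ?_⟩
      · have : a * d % 4 = 1 := by omega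
        rwa [Nat.mul_mod, a4, one_mul, Nat.mod_mod] at this
      · rw [← j8 _ k, jacobiSym.mul_right' 2 (by omega) d0]
        rfl
    · rw [one_mul] at ht hnd ⊢
      have k := h8 d hnd ht
      exact ⟨by omega, j8 d k⟩
  · obtain ⟨k1, k2⟩ := int_odd one_pos le_rfl s2 s3 (S _) hD (by
      rw [one_pow, Padic.norm_intCast_lt_one_iff, hab]
      exact (dvd_pow_self _ (Nat.succ_ne_zero _)).mul_right _) hab hc fun _ _ h _ => h
    refine ⟨k1, fun d r hd hn => ?_⟩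
    have k := jac_of_Q (nd d hn) (k2 d r hd)
    rw [if_neg q2, ← jacobiSym.quadratic_reciprocity_one_mod_four a4 (hp.odd_of_ne_two q2)]
    rw [jacobiSym.mul_left] at k
    split_ifs at k ⊢
    · exact k
    · rwa [jacobiSym.one_left] at k

variable {n : ℕ}

theorem assemble (kc : KCStmt) (dg : Gen n → ℤ) {V : Finset (Gen n)} (hV : Nice V)
    (h62 : ((0, none), 2) ∈ V)
    {n₂ n₃ : ℤ} (s2 : Squarefree n₂) (s3 : Squarefree n₃) (hs : n₂ < 0 ↔ n₃ < 0)
    (g2 : ∀ p : ℕ, p.Prime → (p : ℤ) ∣ n₂ → ∃ a ∈ V, a.2 = p ∧ a.1.1 ≠ 2)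
    (g3 : ∀ p : ℕ, p.Prime → (p : ℤ) ∣ n₃ → ∃ a ∈ V, a.2 = p ∧ a.1.1 ≠ 1)
    (c0 : ∀ a ∈ V, a ≠ neg → a.1.1 = 0 → ((a.2 : ℤ) ∣ n₂ ↔ (a.2 : ℤ) ∣ n₃) ∧
      ∀ (d : ℕ) (e : ℤ), n₂ * n₃ = d * e ^ 2 → ¬(a.2 : ℤ) ∣ d →
        if a.2 = 2 then d % 4 = 1 ∧ (if (a.2 : ℤ) ∣ n₂ then dg a else 1) * jacobiSym 2 d = 1
        else (if (a.2 : ℤ) ∣ n₂ then dg a else 1) * jacobiSym d a.2 = 1)
    (c1 : ∀ a ∈ V, a.1.1 = 1 → ¬(a.2 : ℤ) ∣ n₃ ∧
      (if (a.2 : ℤ) ∣ n₂ then dg a * jacobiSym (-1) a.2 else 1) * jacobiSym n₃ a.2 = 1)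
    (c2 : ∀ a ∈ V, a.1.1 = 2 → ¬(a.2 : ℤ) ∣ n₂ ∧
      (if (a.2 : ℤ) ∣ n₃ then dg a else 1) * jacobiSym n₂ a.2 = 1) :
    ∃ y ∈ Ker (gp dg) V, Gv 2 y = n₂ ∧ Gv 1 y = n₃ := by
  let y := V.filter fun a : Gen n => if a = neg then n₂ < 0 else (a.2 : ℤ) ∣ n₂ ∨ (a.2 : ℤ) ∣ n₃
  have hyV : y ⊆ V := filter_subset _ _
  have hy1 : neg ∈ y ↔ n₂ < 0 := by simp [y, hV.neg]
  have hy : ∀ a ∈ V, a ≠ neg → (a ∈ y ↔ (a.2 : ℤ) ∣ n₂ ∨ (a.2 : ℤ) ∣ n₃) := fun a ha h => by
    simp [y, ha, h]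
  clear_value y
  have pr : ∀ a ∈ V, a ≠ neg → a.2.Prime := fun a ha h => (hV.pr a ha).resolve_left h
  have tri : ∀ j : Fin 3, j = 0 ∨ j = 1 ∨ j = 2 := by decide
  have c61 : (neg : Gen n).1.1 = 0 := rfl
  have n61 : ∀ a : Gen n, a.1.1 ≠ 0 → a ≠ neg := by rintro a h rfl; exact h rfl
  have dist : ∀ P : Gen n → Prop, ∀ _ : DecidablePred P, Dist (y.filter P) :=
    fun P _ a ha b hb =>
      hV.dist a (hyV (mem_of_mem_filter a ha)) b (hyV (mem_of_mem_filter b hb))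
  have G2 : Gv 2 y = n₂ := by
    refine prod_eq s2 (dist _ _) (by simp [hy1, c61]) (fun a ha h => ?_) fun q hq h => ?_
    · obtain ⟨ha, hc⟩ := mem_filter.1 ha
      refine ⟨pr a (hyV ha) h, ((hy a (hyV ha) h).1 ha).elim id fun k => ?_⟩
      rcases tri a.1.1 with t | t | t
      · exact (c0 a (hyV ha) h t).1.2 k
      · exact absurd k (c1 a (hyV ha) t).1
      · exact absurd t hc
    · obtain ⟨a, ha, rfl, hc⟩ := g2 q hq h
      exact ⟨a, mem_filter.2 ⟨(hy a ha (by rintro rfl; exact Nat.not_prime_one hq)).2 (Or.inl h),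
        hc⟩, rfl⟩
  have G1 : Gv 1 y = n₃ := by
    refine prod_eq s3 (dist _ _) (by simp [hy1, c61, hs]) (fun a ha h => ?_) fun q hq h => ?_
    · obtain ⟨ha, hc⟩ := mem_filter.1 ha
      refine ⟨pr a (hyV ha) h, ((hy a (hyV ha) h).1 ha).elim (fun k => ?_) id⟩
      rcases tri a.1.1 with t | t | t
      · exact (c0 a (hyV ha) h t).1.1 k
      · exact absurd t hc
      · exact absurd k (c2 a (hyV ha) t).1
    · obtain ⟨a, ha, rfl, hc⟩ := g3 q hq h
      exact ⟨a, mem_filter.2 ⟨(hy a ha (by rintro rfl; exact Nat.not_prime_one hq)).2 (Or.inr h),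
        hc⟩, rfl⟩
  have hm := Gv_mul y
  rw [G2, G1] at hm
  obtain ⟨d, hd⟩ : ∃ d : ℕ, d = ∏ a ∈ y.filter (fun a => a.1.1 ≠ 0), a.2 := ⟨_, rfl⟩
  have G0 : Gv 0 y = d := by
    rw [hd, Nat.cast_prod]
    exact prod_congr rfl fun a ha =>
      val_prime (pr a (hyV (mem_filter.1 ha).1) (n61 a (mem_filter.1 ha).2))
  have z0 : ∀ b ∈ V, b ≠ neg → b.1.1 = 0 →
      if b.2 = 2 then d % 4 = 1 ∧ (if (b.2 : ℤ) ∣ n₂ then dg b else 1) * jacobiSym 2 d = 1
      else (if (b.2 : ℤ) ∣ n₂ then dg b else 1) * jacobiSym d b.2 = 1 := fun b hb h t => by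
    refine (c0 b hb h t).2 d _ (by rw [hm, G0]) fun k => ?_
    rw [Int.natCast_dvd_natCast, hd, (pr b hb h).prime.dvd_finsetProd_iff] at k
    obtain ⟨a, ha, k⟩ := k
    obtain ⟨ha, hc⟩ := mem_filter.1 ha
    have := (Nat.prime_dvd_prime_iff_eq (pr b hb h) (pr a (hyV ha) (n61 a hc))).1 k
    exact hc (hV.dist b hb a (hyV ha) this ▸ t)
  have d8 := z0 ((0, none), 2) h62 (by simp [neg]) rfl
  rw [if_pos rfl] at d8
  obtain ⟨d4, d8⟩ := d8
  have dodd : Odd d := Nat.odd_iff.2 (by omega)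
  have row : ∀ b : Gen n, b.1.1 = 0 → val b = -1 ∨ val b = 2 → ∏ a ∈ y, gp dg a b =
      (if b ∈ y then gp dg b b else 1) * jacobiSym (val b) d := fun b t hb => by
    rw [hd, jac_prod _ _ fun a ha =>
      (pr a (hyV (mem_filter.1 ha).1) (n61 a (mem_filter.1 ha).2)).ne_zero, prod_filter,
      ← prod_ite_eq' y b fun _ => gp dg b b, ← prod_mul_distrib]
    refine prod_congr rfl fun a ha => ?_
    by_cases k : a.1.1 = 0
    · by_cases hab : a = b
      · rw [hab, if_pos rfl, if_neg (not_not.2 t), mul_one]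
      · simp [gp, k, t, hab]
    · have hab : a ≠ b := by rintro rfl; exact k t
      have hp := pr a (hyV ha) (n61 a k)
      have := Fact.mk hp
      simp only [gp, hab, k, t, if_true, if_false, ne_eq, not_false_eq_true, one_mul]
      refine sg_eq (jacobiSym.eq_one_or_neg_one (gcd_one fun h => ?_))
      rcases hb with hb | hb <;> rw [hb] at h
      · exact hp.not_dvd_one (by exact_mod_cast (dvd_neg.1 h))
      · exact hV.odd a (hyV ha) k ((Nat.prime_dvd_prime_iff_eq hp Nat.prime_two).1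
          (by exact_mod_cast h))
  have row1 : ∏ a ∈ y, gp dg a neg = 1 := by
    rw [row neg rfl (Or.inl rfl), show gp dg neg neg = 1 by simp [gp, neg], ite_self, one_mul]
    change jacobiSym (-1) d = 1
    rw [jacobiSym.at_neg_one dodd, ZMod.χ₄_nat_one_mod_four (by omega)]
  refine ⟨y, mem_filter.2 ⟨mem_powerset.2 hyV, fun b hb => ?_⟩, G2, G1⟩
  by_cases b1 : b = neg
  · rw [b1, row1]
  by_cases b2 : b.2 = 2
  · have hyb := hy b hb b1
    have e := hV.dist b hb ((0, none), 2) h62 b2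
    subst e
    rw [← (c0 _ hb b1 rfl).1, or_self] at hyb
    rw [row ((0, none), 2) rfl (Or.inr rfl)]
    change _ * jacobiSym 2 d = 1
    split_ifs with hby
    · rw [if_pos (hyb.1 hby)] at d8
      rw [show gp dg ((0, none), 2) ((0, none), 2) = sg (dg ((0, none), 2)) by simp [gp],
        sg_eq (Int.eq_one_or_neg_one_of_mul_eq_one d8)]
      exact d8
    · rwa [if_neg (mt hyb.2 hby)] at d8
  have K := (kc n).2.1 dg (V.erase b) (y.erase b) b (by rwa [insert_erase hb]) (notMem_erase _ _)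
    b1 b2 (erase_subset_erase _ hyV)
  have hG : Gv b.1.1 (y.erase b) = Gv b.1.1 y := by
    unfold Gv
    rw [filter_erase, erase_eq_of_notMem (by simp)]
  rw [hG] at K
  have hyb := hy b hb b1
  by_cases hby : b ∈ y
  · rw [← mul_prod_erase y _ hby] at row1 ⊢
    rw [K]
    generalize ∏ a ∈ y.erase b, gp dg a neg = σ at row1 ⊢
    have e1 : gp dg b b = sg (dg b) := by simp [gp, (pr b hb b1).ne_one]
    rw [e1]
    rcases tri b.1.1 with t | t | t
    · have k2 := z0 b hb b1 t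
      rw [if_neg b2, if_pos ((hyb.1 hby).elim id (c0 b hb b1 t).1.2)] at k2
      have e2 : gp dg b neg = 1 := by simp [gp, t, b1, c61]
      rw [e2, one_mul] at row1
      rw [t, if_neg (by decide), row1, one_mul, G0,
        sg_eq (Int.eq_one_or_neg_one_of_mul_eq_one k2)]
      exact k2
    · obtain ⟨k1, k2⟩ := c1 b hb t
      rw [if_pos ((hyb.1 hby).resolve_right k1), mul_assoc] at k2
      have e2 : gp dg b neg = sg (jacobiSym (-1) b.2) := by
        simp only [gp, t, b1, c61, if_false, if_true, one_ne_zero]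
        rfl
      rw [e2] at row1
      rw [t, if_neg (by decide), G1, jacobiSym.mul_left]
      have e3 : jacobiSym σ b.2 = jacobiSym (-1) b.2 := by
        rcases jacobiSym.trichotomy (-1) b.2 with u | u | u <;> rw [u] at row1 k2 ⊢
        · simp at k2
        · have : σ = 1 := by simpa [sg] using row1
          rw [this, jacobiSym.one_left]
        · have : σ = -1 := by simp [sg] at row1; omega
          rw [this, u]
      rw [e3, sg_eq (Int.eq_one_or_neg_one_of_mul_eq_one k2)]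
      exact k2
    · obtain ⟨k1, k2⟩ := c2 b hb t
      rw [if_pos ((hyb.1 hby).resolve_left k1)] at k2
      rw [t, if_pos rfl, G2, one_mul, sg_eq (Int.eq_one_or_neg_one_of_mul_eq_one k2)]
      exact k2
  · rw [erase_eq_of_notMem hby, row1, ite_self, one_mul] at K
    rw [K]
    rw [hyb, not_or] at hby
    rcases tri b.1.1 with t | t | t <;> rw [t]
    · simpa [b2, G0, hby.1] using z0 b hb b1 t
    · simpa [hby.1, G1] using (c1 b hb t).2
    · simpa [hby.2, G2] using (c2 b hb t).2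

end LocUH

open LocH LocUH in
/-- the local conditions -/
theorem locU : KCStmt → LOCUStmt := by
  intro kc n N δ V dg a b F d₂ d₃ h2 h3 els
  obtain ⟨n₂, s, s2, hs, e2⟩ := exists_sqf h2
  obtain ⟨n₃, r, s3, hr, e3⟩ := exists_sqf h3
  have hV := F.nice
  have pr : ∀ x ∈ V, x ≠ neg → x.2.Prime := fun x hx h => (hV.pr x hx).resolve_left h
  have n61 : ∀ x : Gen n, x.1.1 ≠ 0 → x ≠ neg := by rintro x h rfl; exact h rfl
  have dist : ∀ P : Gen n → Prop, ∀ _ : DecidablePred P, Dist (V.filter P) :=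
    fun P _ x hx y hy => hV.dist x (mem_of_mem_filter x hx) y (mem_of_mem_filter y hy)
  have p1 : ∀ x ∈ V.filter (fun x => x.1.1 = 1), x.2.Prime := fun x hx =>
    pr x (mem_filter.1 hx).1 (n61 x (by rw [(mem_filter.1 hx).2]; decide))
  have p2 : ∀ x ∈ V.filter (fun x => x.1.1 = 2), x.2.Prime := fun x hx =>
    pr x (mem_filter.1 hx).1 (n61 x (by rw [(mem_filter.1 hx).2]; decide))
  have p0 : ∀ x ∈ zer N V, x.2.Prime := fun x hx =>
    pr x (mem_filter.1 hx).1 (mem_filter.1 hx).2.2.1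
  have ha : (a : ℤ) = 1 * ∏ x ∈ V.filter (fun x => x.1.1 = 1), (x.2 : ℤ) := by
    rw [F.ha, Nat.cast_prod, one_mul]
  have hb : (b : ℤ) = 1 * ∏ x ∈ V.filter (fun x => x.1.1 = 2), (x.2 : ℤ) := by
    rw [F.hb, Nat.cast_prod, one_mul]
  have da : ∀ x ∈ V, x ≠ neg → x.1.1 ≠ 1 → ¬(x.2 : ℤ) ∣ a := fun x hx h t k => by
    rw [ha, one_mul] at k
    obtain ⟨z, hz, e⟩ := dvd_pr p1 (pr x hx h) k
    exact t (hV.dist z (mem_filter.1 hz).1 x hx e ▸ (mem_filter.1 hz).2)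
  have db : ∀ x ∈ V, x ≠ neg → x.1.1 ≠ 2 → ¬(x.2 : ℤ) ∣ b := fun x hx h t k => by
    rw [hb, one_mul] at k
    obtain ⟨z, hz, e⟩ := dvd_pr p2 (pr x hx h) k
    exact t (hV.dist z (mem_filter.1 hz).1 x hx e ▸ (mem_filter.1 hz).2)
  have fx : ∀ x ∈ V, x ≠ neg → x.2 ∣ N → x = ((0, none), x.2) := fun x hx h k =>
    hV.dist x hx _ (F.fix _ (pr x hx h) k).1 rfl
  have nN : ∀ x ∈ V, x.1.1 ≠ 0 → ¬x.2 ∣ N := fun x hx t k =>
    t (by rw [fx x hx (n61 x t) k])
  have n1 : ∀ {p : ℕ}, p.Prime → ¬(p : ℤ) ∣ 1 := fun hp k =>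
    hp.not_dvd_one (by exact_mod_cast k)
  have S : ∀ (p : ℕ) [Fact p.Prime], Sol2 ((a : ℤ) : ℚ_[p]) ((b : ℤ) : ℚ_[p]) n₂ n₃ :=
    fun p _ => by
      have := scale (n₂ := (n₂ : ℚ_[p])) (n₃ := n₃) (s := (s : ℚ_[p])) (r := (r : ℚ_[p]))
        (by exact_mod_cast hs) (by exact_mod_cast hr) (by exact_mod_cast e2)
        (by exact_mod_cast e3) (els.2 p)
      exact_mod_cast this
  have c1 : ∀ x ∈ V, x.1.1 = 1 → ¬(x.2 : ℤ) ∣ n₃ ∧
      (if (x.2 : ℤ) ∣ n₂ then dg x * jacobiSym (-1) x.2 else 1) * jacobiSym n₃ x.2 = 1 := by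
    intro x hx t
    have t0 : x.1.1 ≠ 0 := by rw [t]; decide
    have hp := pr x hx (n61 x t0)
    have := Fact.mk hp
    have k := exact_pr p1 (dist _ _) (mem_filter.2 ⟨hx, t⟩) (n1 hp)
    rw [← ha] at k
    obtain ⟨k1, k2⟩ := int_one s2 s3 (S x.2) k.1 k.2 (db x hx (n61 x t0) (by rw [t]; decide))
    refine ⟨k1, ?_⟩
    rw [F.dg x hx (n61 x t0) (nN x hx t0), t]
    rw [jacobiSym.mul_left] at k2
    split_ifs at k2 ⊢
    · rw [← jacobiSym.mul_left, mul_neg_one]; exact k2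
    · rwa [jacobiSym.one_left] at k2
  have c2 : ∀ x ∈ V, x.1.1 = 2 → ¬(x.2 : ℤ) ∣ n₂ ∧
      (if (x.2 : ℤ) ∣ n₃ then dg x else 1) * jacobiSym n₂ x.2 = 1 := by
    intro x hx t
    have t0 : x.1.1 ≠ 0 := by rw [t]; decide
    have hp := pr x hx (n61 x t0)
    have := Fact.mk hp
    have k := exact_pr p2 (dist _ _) (mem_filter.2 ⟨hx, t⟩) (n1 hp)
    rw [← hb] at k
    obtain ⟨k1, k2⟩ := int_one s3 s2 (swap (S x.2)) k.1 k.2
      (da x hx (n61 x t0) (by rw [t]; decide))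
    refine ⟨k1, ?_⟩
    rw [F.dg x hx (n61 x t0) (nN x hx t0), t]
    rw [jacobiSym.mul_left] at k2
    split_ifs at k2 ⊢
    · exact k2
    · rwa [jacobiSym.one_left] at k2
  have cover : ∀ p : ℕ, p.Prime → (p : ℤ) ∣ n₂ ∨ (p : ℤ) ∣ n₃ → ∃ x ∈ V, x.2 = p :=
    fun p hp h => by
      by_contra k
      have := Fact.mk hp
      have ka : ¬(p : ℤ) ∣ a := fun j => by
        rw [ha, one_mul] at j
        obtain ⟨z, hz, e⟩ := dvd_pr p1 hp j
        exact k ⟨z, (mem_filter.1 hz).1, e⟩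
      have kb : ¬(p : ℤ) ∣ b := fun j => by
        rw [hb, one_mul] at j
        obtain ⟨z, hz, e⟩ := dvd_pr p2 hp j
        exact k ⟨z, (mem_filter.1 hz).1, e⟩
      have kd : ¬(p : ℤ) ∣ a - b := fun j => by
        rw [F.hd] at j
        rcases (Nat.prime_iff_prime_int.1 hp).dvd_or_dvd j with j | j
        · exact k ⟨_, (F.fix p hp (F.dN p hp j)).1, rfl⟩
        · obtain ⟨z, hz, e⟩ := dvd_pr p0 hp j
          exact k ⟨z, (mem_filter.1 hz).1, e⟩
      exact h.elim (int_good s2 s3 (S p) ka kb kd)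
        (int_good s3 s2 (swap (S p)) kb ka (by rwa [dvd_sub_comm]))
  have SR : Sol2 (a : ℝ) (b : ℝ) n₂ n₃ := by
    have := scale (n₂ := (n₂ : ℝ)) (n₃ := n₃) (s := (s : ℝ)) (r := (r : ℝ))
      (by exact_mod_cast hs) (by exact_mod_cast hr) (by exact_mod_cast e2) (by exact_mod_cast e3)
      els.1
    exact_mod_cast this
  have pa : (0 : ℝ) < a := by
    rw [Nat.cast_pos, F.ha]; exact prod_pos fun x hx => (p1 x hx).pos
  have pb : (0 : ℝ) < b := by
    rw [Nat.cast_pos, F.hb]; exact prod_pos fun x hx => (p2 x hx).pos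
  obtain ⟨y, hy, G2, G1⟩ := LocUH.assemble kc dg hV (F.fix 2 Nat.prime_two F.two).1 s2 s3
    ⟨fun h => by_contra fun k => real_aux pb
        (by exact_mod_cast lt_of_le_of_ne (not_lt.1 k) s3.ne_zero.symm) (by exact_mod_cast h)
        (swap SR),
      fun h => by_contra fun k => real_aux pa
        (by exact_mod_cast lt_of_le_of_ne (not_lt.1 k) s2.ne_zero.symm) (by exact_mod_cast h) SR⟩
    (fun p hp h => by
      obtain ⟨x, hx, rfl⟩ := cover p hp (Or.inl h)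
      exact ⟨x, hx, rfl, fun k => (c2 _ hx k).1 h⟩)
    (fun p hp h => by
      obtain ⟨x, hx, rfl⟩ := cover p hp (Or.inr h)
      exact ⟨x, hx, rfl, fun k => (c1 _ hx k).1 h⟩)
    (by
      intro x hx h61 t
      have hp := pr x hx h61
      have hD := da x hx h61 (by rw [t]; decide)
      by_cases hN : x.2 ∣ N
      · obtain ⟨-, hdg, e, c, hδ, hc⟩ := F.fix _ hp hN
        rw [← fx x hx h61 hN] at hdg
        have hz : ¬(x.2 : ℤ) ∣ c * ∏ x ∈ zer N V, (x.2 : ℤ) := fun j =>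
          ((Nat.prime_iff_prime_int.1 hp).dvd_or_dvd j).elim hc fun j => by
            obtain ⟨z, hz, e⟩ := dvd_pr p0 hp j
            exact (mem_filter.1 hz).2.2.2 (e ▸ hN)
        have hab := F.hd
        rw [hδ, mul_assoc] at hab
        rw [hdg]
        exact at_N hp s2 s3 (fun _ => S x.2) hD F.a4 hab hz (F.hd ▸ F.d7.mul_right _)
      · have := Fact.mk hp
        have k := exact_pr p0 (dist _ _) (x := x) (mem_filter.2 ⟨hx, t, h61, hN⟩)
          (fun j => hN (F.dN _ hp j))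
        rw [← F.hd] at k
        obtain ⟨k1, k2⟩ := int_zer s2 s3 (S x.2) hD k.1 k.2
        refine ⟨k1, fun d e hd hn => ?_⟩
        rw [if_neg fun j : x.2 = 2 => hN (j ▸ F.two), F.dg x hx h61 hN, t]
        exact k2 d e hd hn) c1 c2
  exact ⟨y, hy, ⟨n₂ * s, by rw [G2, e2]; ring⟩, ⟨n₃ * r, by rw [G1, e3]; ring⟩⟩

end Pool.Agent.MP_a43263_nt.RG
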