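import Pool.Agent.MP_a43263_nt.RU.Spec
import Pool.Agent.MP_a43263_nt.RG.Par

/-! PROJECT RANKG, second version: the parity of the corank of the descent matrix. -/

set_option autoImplicit false
set_option linter.unusedSectionVars false

noncomputable section

namespace Pool.Agent.MP_a43263_nt.RG

open Finset
open R2 (Sgn chi Ker sg sg_sgn sg_eq prod_sgn chi_eq_rows chi_comm mem_Ker)

namespace ParU

open Par (jac_prod mem_zer val_prime)

/-- the characteristic vector is not isotropic -/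
theorem part5 {ι : Type} [DecidableEq ι] {g : ι → ι → ℤ} (hg : Sgn g) (V w : Finset ι)
    (hw : w ⊆ V) (hd : ∀ a ∈ V, g a a = ∏ t ∈ w, g t a) (hc : chi g w w = -1) :
    ∃ κ : ℕ, (Ker g V).card = 2 ^ κ ∧ κ % 2 = (V.card + 1) % 2 := by
  set g' : Option ι → Option ι → ℤ := fun a b =>
    a.elim (b.elim (-1) fun _ => 1) fun x => b.elim 1 fun y => g x y with hg'def
  have hg' : Sgn g' := by
    refine ⟨fun a b => ?_, fun a b => ?_⟩
    · cases a <;> cases b <;> simp [hg'def, hg.1]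
    · cases a <;> cases b <;> simp [hg'def, hg.2]
  have hn : ∀ x : Finset ι, none ∉ x.map Function.Embedding.some := by simp
  have r1 : ∀ (x : Finset ι) (b : ι), ∏ a ∈ x.map Function.Embedding.some, g' a (some b) =
      ∏ a ∈ x, g a b := fun x b => by rw [prod_map]; rfl
  have r2 : ∀ x : Finset ι, ∏ a ∈ x.map Function.Embedding.some, g' a none = 1 := fun x => by
    rw [prod_map]; exact prod_eq_one fun _ _ => rfl
  obtain ⟨κ, k1, k2⟩ := Par.part4 hg' (insert none (V.map Function.Embedding.some))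
    (insert none (w.map Function.Embedding.some)) (insert_subset_insert _ (map_subset_map.2 hw))
    (fun a ha => by
      rw [prod_insert (hn w)]
      rcases mem_insert.1 ha with rfl | ha
      · rw [r2, mul_one]
      · obtain ⟨b, hb, rfl⟩ := mem_map.1 ha
        exact (hd b hb).trans ((r1 w b).symm.trans (one_mul _).symm))
    (by
      rw [chi_eq_rows] at hc ⊢
      rw [prod_insert (hn w), prod_insert (hn w), r2, prod_map,
        prod_congr rfl fun b _ => show ∏ a ∈ insert none (w.map Function.Embedding.some),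
          g' a (Function.Embedding.some b) = ∏ a ∈ w, g a b from by
            rw [prod_insert (hn w)]; exact (one_mul _).trans (r1 w b), hc]
      rfl)
  refine ⟨κ, ?_, by rwa [card_insert_of_notMem (hn V), card_map] at k2⟩
  rw [← k1]
  refine card_bij (fun x _ => x.map Function.Embedding.some) (fun x hx => ?_)
    (fun x _ y _ e => map_injective _ e) fun y hy => ?_
  · obtain ⟨a, b⟩ := mem_Ker.1 hx
    refine mem_Ker.2 ⟨(map_subset_map.2 a).trans (subset_insert _ _), fun c hc => ?_⟩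
    rcases mem_insert.1 hc with rfl | hc
    · exact r2 x
    · obtain ⟨d, hd, rfl⟩ := mem_map.1 hc
      exact (r1 x d).trans (b d hd)
  · obtain ⟨a, b⟩ := mem_Ker.1 hy
    have h0 : none ∉ y := fun h => by
      have h1 := b none (mem_insert_self _ _)
      rw [← mul_prod_erase y _ h, prod_eq_one fun c hc => ?_] at h1
      · exact absurd h1 (by simp [hg'def])
      · obtain ⟨d, rfl⟩ := Option.ne_none_iff_exists'.1 (ne_of_mem_erase hc)
        rfl
    obtain ⟨x, hx, rfl⟩ := subset_map_iff.1 ((subset_insert_iff_of_notMem h0).1 a)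
    exact ⟨x, mem_Ker.2 ⟨hx, fun c hc => (r1 x c).symm.trans
      (b _ (mem_insert_of_mem (mem_map_of_mem _ hc)))⟩, rfl⟩

variable {n N : ℕ} {δ : ℤ} {V : Finset (Gen n)} {dg : Gen n → ℤ} {a b : ℕ}

theorem odd_dvd {p e r s : ℕ} {d : ℤ} (hp : p.Prime) (h : δ = p ^ (2 * e + 1) * d)
    (hd : ¬(p : ℤ) ∣ d) (hs : s ^ 2 * r = δ.natAbs) : p ∣ r := by
  by_contra hr
  have hd' : ¬p ∣ d.natAbs := fun k => hd (Int.natCast_dvd.2 k)
  have d0 : d.natAbs ≠ 0 := fun k => hd' (k ▸ dvd_zero _)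
  have r0 : r ≠ 0 := fun k => hr (k ▸ dvd_zero _)
  rw [h, Int.natAbs_mul, Int.natAbs_pow, Int.natAbs_natCast] at hs
  have s0 : s ≠ 0 := by
    rintro rfl
    exact mul_ne_zero (pow_ne_zero _ hp.ne_zero) d0 (hs.symm.trans (by simp))
  have := congrArg (fun x => x.factorization p) hs
  simp only [Nat.factorization_mul (pow_ne_zero _ s0) r0, Nat.factorization_pow,
    Nat.factorization_mul (pow_ne_zero _ hp.ne_zero) d0, Finsupp.add_apply, Finsupp.smul_apply,
    Nat.factorization_eq_zero_of_not_dvd hr, Nat.factorization_eq_zero_of_not_dvd hd',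
    hp.factorization_self, smul_eq_mul] at this
  omega

/-- the characteristic vector -/
theorem exists_w (L : LocU N δ V dg a b) : ∃ (w : Finset (Gen n)) (s : ℕ), w ⊆ V ∧
    (∀ x ∈ V, x.1.1 = 0 → x ≠ neg → x ∈ w) ∧ (∀ t ∈ w, t.1.1 = 0) ∧
    (b : ℤ) - a = (s : ℤ) ^ 2 * ∏ t ∈ w, val t ∧ ∀ p : ℕ, p.Prime → p ∣ s → p ∣ N := by
  obtain ⟨r, s, e, hr⟩ := Nat.sq_mul_squarefree δ.natAbs
  have hδ : ∀ p : ℕ, p.Prime → p ∣ δ.natAbs → p ∣ N := fun p hp h =>
    L.dN p hp (Int.natCast_dvd.2 h)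
  have hrN : ∀ p ∈ r.primeFactors, p.Prime ∧ p ∣ N := fun p hp =>
    ⟨Nat.prime_of_mem_primeFactors hp, hδ p (Nat.prime_of_mem_primeFactors hp)
      (e ▸ Dvd.dvd.mul_left (Nat.dvd_of_mem_primeFactors hp) _)⟩
  set R : Finset (Gen n) := r.primeFactors.image fun p => ((0, none), p) with hR
  have hRm : ∀ t ∈ R, t ∈ V ∧ t.1.1 = 0 ∧ t.2.Prime ∧ t.2 ∣ N := by
    intro t ht
    obtain ⟨p, hp, rfl⟩ := mem_image.1 ht
    exact ⟨(L.fix p (hrN p hp).1 (hrN p hp).2).1, rfl, hrN p hp⟩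
  have hdis : Disjoint (zer N V) R := by
    rw [disjoint_left]
    intro t h1 h2
    exact (mem_zer.1 h1).2.2.2 (hRm t h2).2.2.2
  have p1 : ∏ t ∈ R, val t = r := by
    rw [hR, prod_image fun _ _ _ _ e => (Prod.mk.inj e).2,
      prod_congr rfl fun p hp => val_prime (x := ((0, none), p)) (hrN p hp).1]
    exact_mod_cast congrArg (Nat.cast (R := ℤ)) (Nat.prod_primeFactors_of_squarefree hr)
  have p2 : ∏ t ∈ zer N V, val t = ∏ t ∈ zer N V, (t.2 : ℤ) :=
    prod_congr rfl fun t ht => val_prime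
      ((L.nice.pr t (mem_zer.1 ht).1).resolve_left (mem_zer.1 ht).2.2.1)
  have p3 : ∏ t ∈ zer N V ∪ R, val t = (∏ t ∈ zer N V, (t.2 : ℤ)) * r := by
    rw [prod_union hdis, p1, p2]
  have hsub : zer N V ∪ R ⊆ V :=
    union_subset (fun t ht => (mem_zer.1 ht).1) fun t ht => (hRm t ht).1
  have hall : ∀ x ∈ V, x.1.1 = 0 → x ≠ neg → x ∈ zer N V ∪ R := fun x hx h0 hn => by
    by_cases hN : x.2 ∣ N
    · have hp := (L.nice.pr x hx).resolve_left hn
      obtain ⟨h2, -, k, d, h3, h4⟩ := L.fix x.2 hp hN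
      exact mem_union_right _ (mem_image.2 ⟨x.2, Nat.mem_primeFactors.2
        ⟨hp, odd_dvd hp h3 h4 e, hr.ne_zero⟩, L.nice.dist _ h2 x hx rfl⟩)
    · exact mem_union_left _ (mem_zer.2 ⟨hx, h0, hn, hN⟩)
  have hcl : ∀ t ∈ zer N V ∪ R, t.1.1 = 0 := fun t ht =>
    (mem_union.1 ht).elim (fun h => (mem_zer.1 h).2.1) fun h => (hRm t h).2.1
  have hs : ∀ p : ℕ, p.Prime → p ∣ s → p ∣ N := fun p hp h =>
    hδ p hp (e ▸ Dvd.dvd.mul_right (dvd_pow h two_ne_zero) _)
  have e' : (s : ℤ) ^ 2 * r = |δ| := by rw [← Int.natCast_natAbs]; exact_mod_cast e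
  have hd := L.hd
  rcases le_total δ 0 with h | h
  · refine ⟨zer N V ∪ R, s, hsub, hall, hcl, ?_, hs⟩
    rw [abs_of_nonpos h] at e'
    rw [p3]
    linear_combination -hd - (∏ t ∈ zer N V, (t.2 : ℤ)) * e'
  · have hn : neg ∉ zer N V ∪ R := by
      intro ht
      rcases mem_union.1 ht with h | h
      · exact (mem_zer.1 h).2.2.1 rfl
      · exact Nat.not_prime_one (hRm _ h).2.2.1
    refine ⟨insert neg (zer N V ∪ R), s, insert_subset L.nice.neg hsub,
      fun x hx h0 h1 => mem_insert_of_mem (hall x hx h0 h1), ?_, ?_, hs⟩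
    · rw [forall_mem_insert]
      exact ⟨rfl, hcl⟩
    · rw [abs_of_nonneg h] at e'
      rw [prod_insert hn, p3, show val (neg : Gen n) = -1 from rfl]
      linear_combination -hd + (∏ t ∈ zer N V, (t.2 : ℤ)) * e'

theorem not_dvd (L : LocU N δ V dg a b) {x : Gen n} (hx : x ∈ V) (hc : x.1.1 ≠ 0) : ¬x.2 ∣ N := by
  intro hN
  have hn : x ≠ neg := fun e => hc (by rw [e]; rfl)
  have hp := (L.nice.pr x hx).resolve_left hn
  exact hc (by rw [L.nice.dist x hx _ (L.fix x.2 hp hN).1 rfl])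

/-- the diagonal at the generators of the classes one and two -/
theorem diag_pos (L : LocU N δ V dg a b) {w : Finset (Gen n)} {s : ℕ} (hw : w ⊆ V)
    (h0 : ∀ t ∈ w, t.1.1 = 0) (e : (b : ℤ) - a = (s : ℤ) ^ 2 * ∏ t ∈ w, val t)
    (hs : ∀ p : ℕ, p.Prime → p ∣ s → p ∣ N) {x : Gen n} (hx : x ∈ V) (hc : x.1.1 ≠ 0) :
    gp dg x x = ∏ t ∈ w, gp dg t x := by
  have hn : x ≠ neg := fun e => hc (by rw [e]; rfl)
  have hp := (L.nice.pr x hx).resolve_left hn
  have key : ¬x.2 ∣ N ∧ jacobiSym (![(a : ℤ), b, -a] x.1.1) x.2 = jacobiSym (b - a) x.2 := by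
    have h3 : ∀ j : Fin 3, j ≠ 0 → j = 1 ∨ j = 2 := by decide
    refine ⟨not_dvd L hx hc, ?_⟩
    rcases h3 _ hc with h | h
    · have h1 : x.2 ∣ a := L.ha ▸ dvd_prod_of_mem _ (mem_filter.2 ⟨hx, h⟩)
      rw [h]
      refine jacobiSym.mod_left' (Int.ModEq.symm ?_)
      simpa using (Int.ModEq.refl (b : ℤ)).sub
        (Int.modEq_zero_iff_dvd.2 (Int.natCast_dvd_natCast.2 h1))
    · have h1 : x.2 ∣ b := L.hb ▸ dvd_prod_of_mem _ (mem_filter.2 ⟨hx, h⟩)
      rw [h]
      refine jacobiSym.mod_left' (Int.ModEq.symm ?_)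
      simpa using (Int.modEq_zero_iff_dvd.2 (Int.natCast_dvd_natCast.2 h1)).sub
        (Int.ModEq.refl (a : ℤ))
  have hrow : ∀ t ∈ w, gp dg t x = jacobiSym (val t) x.2 := by
    intro t ht
    have hne : t ≠ x := fun e => hc (e ▸ h0 t ht)
    unfold gp
    rw [if_neg hne, if_pos (h0 t ht), if_neg hc]
    refine sg_eq (jacobiSym.eq_one_or_neg_one ?_)
    rcases L.nice.pr t (hw ht) with h | h
    · rw [h, show val (neg : Gen n) = -1 from rfl]
      simp
    · rw [val_prime h, Int.gcd_natCast_natCast]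
      exact (Nat.coprime_primes h hp).2 fun e => hne (L.nice.dist t (hw ht) x hx e)
  have hsq : jacobiSym ((s : ℤ) ^ 2) x.2 = 1 := by
    refine jacobiSym.sq_one' ?_
    rw [Int.gcd_natCast_natCast]
    exact ((Nat.Prime.coprime_iff_not_dvd hp).2 fun h => key.1 (hs _ hp h)).symm
  have hdg : dg x = ∏ t ∈ w, gp dg t x := by
    rw [L.dg x hx hn key.1, key.2, e, jacobiSym.mul_left, hsq, one_mul, jac_prod,
      prod_congr rfl hrow]
  rw [← hdg]
  unfold gp
  rw [if_pos rfl, if_neg hp.one_lt.ne']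
  refine sg_eq ?_
  rw [hdg]
  exact prod_sgn w fun t _ => (gp_sgn dg).2 t x

/-- the diagonal at the primes of class zero -/
theorem diag_zero (L : LocU N δ V dg a b) {x : Gen n} (hx : x ∈ V) (hc : x.1.1 = 0)
    (hn : x ≠ neg) : gp dg x x = dg x := by
  have hp := (L.nice.pr x hx).resolve_left hn
  have h1 : x.2.Coprime a := by
    rw [L.ha]
    refine Nat.Coprime.prod_right fun t ht => ?_
    obtain ⟨t1, t2⟩ := mem_filter.1 ht
    have hq := (L.nice.pr t t1).resolve_left fun e => by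
      rw [e] at t2; exact absurd (show (0 : Fin 3) = 1 from t2) (by decide)
    refine (Nat.coprime_primes hp hq).2 fun e => ?_
    rw [← L.nice.dist x hx t t1 e, hc] at t2
    exact absurd t2 (by decide)
  unfold gp
  rw [if_pos rfl, if_neg hp.one_lt.ne']
  refine sg_eq ?_
  by_cases hN : x.2 ∣ N
  · obtain ⟨h2, h3, -⟩ := L.fix x.2 hp hN
    rw [L.nice.dist x hx _ h2 rfl, h3]
    exact jacobiSym.eq_one_or_neg_one (by rw [Int.gcd_natCast_natCast]; exact h1)
  · rw [L.dg x hx hn hN, hc]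
    exact jacobiSym.eq_one_or_neg_one (a := a) (by rw [Int.gcd_natCast_natCast]; exact h1.symm)

end ParU

theorem parU : PARUStmt := by
  intro n N δ V dg a b L
  obtain ⟨w, s, hw, hz, h0, e, hs⟩ := ParU.exists_w L
  have hneg : gp dg neg neg = 1 := by simp [gp, neg]
  have hd : ∀ x ∈ V, gp dg x x = ∏ t ∈ w, gp dg t x := by
    intro x hx
    by_cases hc : x.1.1 = 0
    · have hoff : ∀ t ∈ w, t ≠ x → gp dg t x = 1 := by
        intro t ht hne
        unfold gp
        rw [if_neg hne, if_pos (h0 t ht), if_pos hc]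
      by_cases hxw : x ∈ w
      · exact (prod_eq_single_of_mem x hxw hoff).symm
      · have : x = neg := by_contra fun k => hxw (hz x hx hc k)
        rw [prod_eq_one fun t ht => hoff t ht fun e => hxw (e ▸ ht), this, hneg]
    · exact ParU.diag_pos L hw h0 e hs hx hc
  have hχ : chi (gp dg) w w = ∏ x ∈ V.filter (fun x => x.1.1 = 0 ∧ x ≠ neg), dg x := by
    rw [chi_eq_rows, ← prod_congr rfl fun x hx => hd x (hw hx),
      ← prod_subset (s₁ := V.filter fun x => x.1.1 = 0 ∧ x ≠ neg)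
        (fun x hx => hz x (mem_filter.1 hx).1 (mem_filter.1 hx).2.1 (mem_filter.1 hx).2.2)
        fun x hx hxz => by
          have : x = neg := by_contra fun k => hxz (mem_filter.2 ⟨hw hx, h0 x hx, k⟩)
          rw [this, hneg]]
    exact prod_congr rfl fun x hx =>
      ParU.diag_zero L (mem_filter.1 hx).1 (mem_filter.1 hx).2.1 (mem_filter.1 hx).2.2
  rw [← hχ]
  have h2 : chi (gp dg) w w = 1 ∨ chi (gp dg) w w = -1 :=
    prod_sgn w fun x _ => prod_sgn w fun t _ => (gp_sgn dg).2 x t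
  rcases h2 with h | h
  · rw [if_pos h]
    exact Par.part4 (gp_sgn dg) V w hw hd h
  · rw [if_neg (by rw [h]; norm_num)]
    exact ParU.part5 (gp_sgn dg) V w hw hd h

end Pool.Agent.MP_a43263_nt.RG
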