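import Mathlib
import Pool.Agent.MP_a43263_nt.R2.Maj
import Pool.Agent.MP_a43263_nt.R2.Exc
import Pool.Agent.MP_a43263_nt.R2.Mer
import Pool.Agent.MP_a43263_nt.R2.Tri
import Pool.Agent.MP_a43263_nt.DH.Ins
import Pool.Agent.MP_a43263_nt.DH.Til1
import Pool.Agent.MP_a43263_nt.DH.Til
import Pool.Agent.MP_a43263_nt.DH.Stp
import Pool.Agent.MP_a43263_nt.DH.Sz
import Pool.Agent.MP_a43263_nt.RG.Cnt
import Pool.Agent.MP_a43263_nt.RG.Den
import Pool.Agent.MP_a43263_nt.RG.Exp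
import Pool.Agent.MP_a43263_nt.RG.Fib
import Pool.Agent.MP_a43263_nt.RG.Gg
import Pool.Agent.MP_a43263_nt.RG.Key
import Pool.Agent.MP_a43263_nt.RG.Kil
import Pool.Agent.MP_a43263_nt.RG.Lya
import Pool.Agent.MP_a43263_nt.RG.Mkv
import Pool.Agent.MP_a43263_nt.RG.Osc
import Pool.Agent.MP_a43263_nt.RG.Pair
import Pool.Agent.MP_a43263_nt.RG.Pos
import Pool.Agent.MP_a43263_nt.RG.Sym
import Pool.Agent.MP_a43263_nt.RU.Alg
import Pool.Agent.MP_a43263_nt.RU.Apx
import Pool.Agent.MP_a43263_nt.RU.Base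
import Pool.Agent.MP_a43263_nt.RU.Br
import Pool.Agent.MP_a43263_nt.RU.Fin
import Pool.Agent.MP_a43263_nt.RU.Geo
import Pool.Agent.MP_a43263_nt.RU.Good
import Pool.Agent.MP_a43263_nt.RU.Loc
import Pool.Agent.MP_a43263_nt.RU.Par
import Pool.Agent.MP_a43263_nt.RU.Pty

/-! PROJECT RANKG, second version: the modules put together. -/

namespace Pool.Agent.MP_a43263_nt.RG

theorem mainU : MainUStmt :=
  have hdo := R2.dos R2.jac
  have hexp := expo_main R2.mer (R2.exc R2.mer hdo (R2.chss R2.jac R2.sw))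
  jinU (finU parU
    (pos (DH.sz_of DH.md DH.ins DH.til1 DH.til DH.stp DH.all DH.sz) (den R2.sw (mas R2.mer R2.pm)))
    (mkv kcs (sym kcs) cnt (mes R2.mer) (dom (fib R2.mer R2.pm (R2.sv R2.crt)))
      (lya bor kcs R2.mer hexp (step bor kcs)) (kil kcs R2.mer hexp)
      (os (key kcs (sym kcs) (gg R2.mer hdo (pair R2.mer (R2.shi R2.box) (R2.cen R2.crt))))))
    (sgnU (baseU apx ptyU)) ptU (brU ptU) (geoU kcs)
    (goodU (algU kcs R2.sha rank (locU kcs)) (brU ptU) spe))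

end Pool.Agent.MP_a43263_nt.RG
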